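import Pool.Agent.N121.ZK.Dom
import Pool.Agent.N121.BF.Arr

/-!
# Relations given by arrays of integers, at the scaled points
-/

set_option autoImplicit false
set_option linter.unusedSectionVars false

open Complex Set Filter Topology NumberField

namespace Pool.Agent.N121.ZK

open Pool.Agent.Y118.HP (qm bm)
open Pool.Agent.Y890.MV
open Pool.Agent.Y890.SM
open Pool.Agent.Y890.SP (Qbar)
open Pool.Agent.N121.OH (arv PE perF_eq)
open Pool.Agent.N121.AH (mi mm cst UU U2 fp TorG PF scp exL q0 q0_map er ep w0 u0 u0_ne cf scf scf_ne scf_sq perG_eq sc_mem bq)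
open Pool.Agent.N121.BF (Lm)

section gen

variable {κ : Type} {m : κ → ℕ}

/-- rescaling of the columns -/
noncomputable def rsW (m : κ → ℕ) (t : κ → ℤ) (Y : ∀ i, Matrix (Fin (mi m i)) (Fin (mi m i)) ℂ) (i : κ) :
    Matrix (Fin (mi m i)) (Fin (mi m i)) ℂ :=
  Matrix.of fun l j => ((t i : ℤ) : ℂ) ^ ep (m i) j * Y i l j

theorem q0_scaleW {k : ℕ} {s : ℂ} (hs0 : s ≠ 0) (a b : Fin (mm k)) :
    s ^ ep k a * q0 ℂ k a b * s ^ ep k b = q0 ℂ k a b := by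
  have ha : (a : ℕ) < 2 * (k / 2) := a.2
  have hb : (b : ℕ) < 2 * (k / 2) := b.2
  unfold q0 ep
  rw [Matrix.of_apply]
  by_cases h1 : (b : ℕ) = a + k / 2
  · rw [if_pos h1, if_pos (by omega), if_neg (by omega), zpow_neg_one, zpow_one]
    field_simp
  · by_cases h2 : (a : ℕ) = b + k / 2
    · rw [if_neg h1, if_pos h2, if_neg (by omega), if_pos (by omega), zpow_neg_one, zpow_one]
      field_simp
    · rw [if_neg h1, if_neg h2, mul_zero, zero_mul]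

theorem rsW_tor {t : κ → ℤ} (ht : ∀ i, t i ≠ 0) {Y : ∀ i, Matrix (Fin (mi m i)) (Fin (mi m i)) ℂ} {μ : ℂ} :
    ((rsW m t Y, μ) ∈ TorG m ↔ (Y, μ) ∈ TorG m) := by
  unfold TorG
  simp only [Set.mem_ofPred_eq]
  refine and_congr_right fun _ => forall_congr' fun i => ?_
  have hs0 : ((t i : ℤ) : ℂ) ≠ 0 := by exact_mod_cast ht i
  have h1 : rsW m t Y i * q0 ℂ (m i) * (rsW m t Y i).transpose = Y i * q0 ℂ (m i) * (Y i).transpose := by
    ext r u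
    simp only [Matrix.mul_apply, Matrix.transpose_apply, Finset.sum_mul]
    refine Finset.sum_congr rfl fun a _ => Finset.sum_congr rfl fun b _ => ?_
    have h5 := q0_scaleW hs0 b a
    unfold rsW
    rw [Matrix.of_apply, Matrix.of_apply]
    linear_combination (Y i r b * Y i u a) * h5
  rw [h1]

/-- inverse of the rescaling -/
theorem rsW_inv {t : κ → ℤ} (ht : ∀ i, t i ≠ 0) (Y : ∀ i, Matrix (Fin (mi m i)) (Fin (mi m i)) ℂ) :
    rsW m t (fun i => Matrix.of fun l j => ((t i : ℤ) : ℂ) ^ (-ep (m i) j) * Y i l j) = Y := by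
  funext i
  have hs0 : ((t i : ℤ) : ℂ) ≠ 0 := by exact_mod_cast ht i
  ext l j
  show ((t i : ℤ) : ℂ) ^ ep (m i) j * (((t i : ℤ) : ℂ) ^ (-ep (m i) j) * Y i l j) = Y i l j
  rw [← mul_assoc, ← zpow_add₀ hs0, add_neg_cancel, zpow_zero, one_mul]

variable [Fintype κ] [DecidableEq κ]

/-- the factors -/
def wI {k : ℕ} (m : κ → ℕ) (t : κ → ℤ) (l : Ix (mi m) → Fin (k + 1)) : ℤ :=
  ∏ y : Ix (mi m), t y.1 ^ (if (y.2.2 : ℕ) < m y.1 / 2 then k - (l y : ℕ) else k + (l y : ℕ))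

/-- the total factor -/
def tI (m : κ → ℕ) (t : κ → ℤ) (k : ℕ) : ℤ := ∏ y : Ix (mi m), t y.1 ^ k

theorem tI_ne {t : κ → ℤ} (ht : ∀ i, t i ≠ 0) (k : ℕ) : tI m t k ≠ 0 :=
  Finset.prod_ne_zero_iff.2 fun y _ => pow_ne_zero _ (ht y.1)

theorem wI_le {k M : ℕ} {t : κ → ℤ} {s : ℝ} (hs : 1 ≤ s) (ht : ∀ i, |(t i : ℝ)| ≤ s ^ M)
    (l : Ix (mi m) → Fin (k + 1)) : |(wI m t l : ℝ)| ≤ s ^ (2 * (M * exL m k)) := by
  unfold wI
  rw [Int.cast_prod, Finset.abs_prod]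
  have h1 : s ^ (2 * (M * exL m k)) = ∏ _y : Ix (mi m), (s ^ M) ^ (2 * k) := by
    unfold exL
    rw [Finset.prod_const, ← pow_mul, ← pow_mul, Finset.sum_const, smul_eq_mul]
    congr 1
    ring
  rw [h1]
  refine Finset.prod_le_prod (fun y _ => abs_nonneg _) fun y _ => ?_
  rw [Int.cast_pow, abs_pow]
  have h2 : (l y : ℕ) ≤ k := Nat.lt_succ_iff.1 (l y).2
  have h3 : (1 : ℝ) ≤ s ^ M := one_le_pow₀ hs
  refine (pow_le_pow_left₀ (abs_nonneg _) (ht y.1) _).trans (pow_le_pow_right₀ h3 ?_)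
  split_ifs <;> omega

theorem wI_eq {k : ℕ} {t : κ → ℤ} (ht : ∀ i, t i ≠ 0) (Y : ∀ i, Matrix (Fin (mi m i)) (Fin (mi m i)) ℂ)
    (l : Ix (mi m) → Fin (k + 1)) :
    ((tI m t k : ℤ) : ℂ) * ∏ y : Ix (mi m), (rsW m t Y y.1 y.2.1 y.2.2) ^ (l y : ℕ) =
      ((wI m t l : ℤ) : ℂ) * ∏ y : Ix (mi m), (Y y.1 y.2.1 y.2.2) ^ (l y : ℕ) := by
  unfold tI wI
  rw [Int.cast_prod, Int.cast_prod, ← Finset.prod_mul_distrib, ← Finset.prod_mul_distrib]
  refine Finset.prod_congr rfl fun y _ => ?_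
  have hs0 : ((t y.1 : ℤ) : ℂ) ≠ 0 := by exact_mod_cast ht y.1
  unfold rsW ep
  rw [Matrix.of_apply, mul_pow, ← mul_assoc, Int.cast_pow, Int.cast_pow]
  congr 1
  have h1 : (l y : ℕ) ≤ k := Nat.lt_succ_iff.1 (l y).2
  obtain ⟨d, hd⟩ := Nat.exists_eq_add_of_le h1
  have h2 : k - (l y : ℕ) = d := by omega
  have h5 : ((t y.1 : ℤ) : ℂ) ^ k = ((t y.1 : ℤ) : ℂ) ^ (l y : ℕ) * ((t y.1 : ℤ) : ℂ) ^ d := by rw [← pow_add, ← hd]
  split_ifs with h3
  · rw [h2, zpow_neg_one, h5, inv_pow]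
    field_simp
  · rw [zpow_one, ← pow_add]

/-- scaled arrays -/
theorem arvW {k : ℕ} {h : Type} [Fintype h] {t : κ → ℤ} (ht : ∀ i, t i ≠ 0) (c : (Ix (mi m) → Fin (k + 1)) → h → ℂ)
    (v : h → ℂ) (Y : ∀ i, Matrix (Fin (mi m i)) (Fin (mi m i)) ℂ) :
    ((tI m t k : ℤ) : ℂ) * arv c v (rsW m t Y) = arv (fun l a => ((wI m t l : ℤ) : ℂ) * c l a) v Y := by
  unfold arv
  rw [Finset.mul_sum]
  refine Finset.sum_congr rfl fun l _ => ?_
  have h1 := wI_eq ht Y l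
  have h2 : (∑ a, v a * (((wI m t l : ℤ) : ℂ) * c l a)) = ((wI m t l : ℤ) : ℂ) * ∑ a, v a * c l a := by
    rw [Finset.mul_sum]
    refine Finset.sum_congr rfl fun a _ => ?_
    ring
  rw [h2]
  linear_combination (∑ a, v a * c l a) * h1

/-- the integral array with values in the ring of integers of `ℚ` -/
def zI {k : ℕ} {h : Type} (t : κ → ℤ) (c : (Ix (mi m) → Fin (k + 1)) → h → ℤ) (l : Ix (mi m) → Fin (k + 1)) (a : h) : 𝓞 ℚ :=
  (wI m t l * c l a : ℤ)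

theorem zI_map {k : ℕ} {h : Type} (t : κ → ℤ) (c : (Ix (mi m) → Fin (k + 1)) → h → ℤ) (l : Ix (mi m) → Fin (k + 1)) (a : h)
    (φ : ℚ →+* ℂ) : φ (zI t c l a : ℚ) = ((wI m t l : ℤ) : ℂ) * (c l a : ℂ) := by
  unfold zI
  simp

end gen

variable {ι : Type} {n : ι → ℕ} [Fintype ι] [DecidableEq ι] {q : ℕ} {w : Fin (q + 1) → ℂ} {hw : w 0 = 1} {f : Sh n}

theorem Q_evalZ (a : XZ n q → ℂ) (S : Cu ι) :
    ((zkF f w hw).Q S).map (MvPolynomial.aeval a) = q0 ℂ (nS n S) := by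
  show ((q0 Qbar (nS n S)).map MvPolynomial.C).map (MvPolynomial.aeval a) = q0 ℂ (nS n S)
  rw [← q0_map (algebraMap Qbar ℂ)]
  refine Matrix.ext fun r s => ?_
  rw [Matrix.map_apply, Matrix.map_apply, Matrix.map_apply, MvPolynomial.aeval_C]

theorem Z_tor {x : XZ n q → ℂ} {Y : Ix (mS n) → ℂ} :
    Y ∈ (zkF f w hw).Tor x ↔ ((fun S => bl Y S), tpi) ∈ TorG (nS n) := by
  unfold TorG SympFam.Tor
  simp only [Set.mem_ofPred_eq]
  constructor
  · intro h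
    refine ⟨tpi_ne, fun S => ?_⟩
    have h1 : bl Y S * ((zkF f w hw).Q S).map (MvPolynomial.aeval x) * (bl Y S).transpose =
      tpi ^ 1 • (bm ℚ (mS n S)).map (algebraMap ℚ ℂ) := h S
    rw [Q_evalZ, pow_one] at h1
    exact h1
  · rintro ⟨_, h⟩ S
    show bl Y S * ((zkF f w hw).Q S).map (MvPolynomial.aeval x) * (bl Y S).transpose =
      tpi ^ 1 • (bm ℚ (mS n S)).map (algebraMap ℚ ℂ)
    rw [Q_evalZ, pow_one]
    exact h S

/-- **Relations given by arrays**: outside the exceptional sets of the family -/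
theorem good_arrZ {k M : ℕ} {h : Type} [Fintype h] {v : h → ℂ} {s : ℝ} (hs : 1 ≤ s) {t : Cu ι → ℤ}
    (ht : ∀ S, t S ≠ 0) (htM : ∀ S, |(t S : ℝ)| ≤ s ^ M)
    {xq : XZ n q → ℚ} {Lc : Set (XZ n q → ℂ)} {A T : ℝ}
    (h1 : ∀ j, Y120.HtLe ℚ T (xq j)) (h2 : (fun j => (algebraMap ℚ ℂ) (xq j)) ∈ Lc)
    (h3 : xq ∉ ExcT k (zkF f w hw).f (zkF f w hw).Tor Lc ℚ (algebraMap ℚ ℂ) v A T)
    (c : (Ix (mi (nS n)) → Fin (k + 1)) → h → ℤ)
    (hc : ∀ l a, s ^ (2 * (M * exL (nS n) k)) * |(c l a : ℝ)| ≤ T ^ A)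
    (h4 : arv (fun l a => (c l a : ℂ)) v (rsW (nS n) t fun S => PB f (Lm w fun j => (algebraMap ℚ ℂ) (xq j)) S) = 0) :
    (∀ Y, (Y, tpi) ∈ TorG (nS n) → arv (fun l a => (c l a : ℂ)) v Y = 0) ∧
    ∀ Y ∈ (zkF f w hw).Tor (fun j => (algebraMap ℚ ℂ) (xq j)),
      ∑ l, (∑ a, v a * (algebraMap ℚ ℂ) (zI t c l a : ℚ)) * ∏ y, Y y ^ (l y : ℕ) = 0 := by
  classical
  have htI : ((tI (nS n) t k : ℤ) : ℂ) ≠ 0 := by exact_mod_cast tI_ne ht k
  have hcast : (fun (l : Ix (mi (nS n)) → Fin (k + 1)) (a : h) => ((wI (nS n) t l : ℤ) : ℂ) * (c l a : ℂ)) =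
      fun l a => (algebraMap ℚ ℂ) (zI t c l a : ℚ) := by
    funext l a
    rw [zI_map]
  have key : ∀ Y ∈ (zkF f w hw).Tor (fun j => (algebraMap ℚ ℂ) (xq j)),
      ∑ l, (∑ a, v a * (algebraMap ℚ ℂ) (zI t c l a : ℚ)) * ∏ y, Y y ^ (l y : ℕ) = 0 := by
    by_contra hne
    apply h3
    refine ⟨h1, h2, zI t c, ?_, ?_, hne⟩
    · intro l a φ
      rw [zI_map, norm_mul]
      have e1 : ‖((wI (nS n) t l : ℤ) : ℂ)‖ = |(wI (nS n) t l : ℝ)| := by
        rw [← Complex.ofReal_intCast, Complex.norm_real, Real.norm_eq_abs]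
      have e2 : ‖(c l a : ℂ)‖ = |(c l a : ℝ)| := by
        rw [← Complex.ofReal_intCast, Complex.norm_real, Real.norm_eq_abs]
      rw [e1, e2]
      refine le_trans ?_ (hc l a)
      exact mul_le_mul_of_nonneg_right (wI_le hs htM l) (abs_nonneg _)
    · have e1 := arvW ht (fun l a => (c l a : ℂ)) v (fun S => PB f (Lm w fun j => (algebraMap ℚ ℂ) (xq j)) S)
      rw [h4, mul_zero, hcast] at e1
      exact e1.symm
  refine ⟨fun Y hY => ?_, key⟩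
  set Z : ∀ S, Matrix (Fin (mi (nS n) S)) (Fin (mi (nS n) S)) ℂ := fun S =>
    Matrix.of fun l j => ((t S : ℤ) : ℂ) ^ (-ep (nS n S) j) * Y S l j with hZ
  have hZY : rsW (nS n) t Z = Y := rsW_inv ht Y
  rw [← hZY, rsW_tor ht] at hY
  have h5 : (fun q : Ix (mi (nS n)) => Z q.1 q.2.1 q.2.2) ∈ (zkF f w hw).Tor (fun j => (algebraMap ℚ ℂ) (xq j)) := by
    rw [Z_tor]
    exact hY
  have h6 := key _ h5
  have e1 := arvW ht (fun l a => (c l a : ℂ)) v Z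
  rw [hcast] at e1
  have e2 : arv (fun l a => (algebraMap ℚ ℂ) (zI t c l a : ℚ)) v Z = 0 := h6
  rw [e2, hZY] at e1
  exact (mul_eq_zero.1 e1).resolve_left htI

/-- relations with powers of `2 π i` as coefficients: all multipliers -/
theorem good_fullZ {k M h : ℕ} {s : ℝ} (hs : 1 ≤ s) {t : Cu ι → ℤ}
    (ht : ∀ S, t S ≠ 0) (htM : ∀ S, |(t S : ℝ)| ≤ s ^ M)
    {xq : XZ n q → ℚ} {Lc : Set (XZ n q → ℂ)} {A T : ℝ}
    (h1 : ∀ j, Y120.HtLe ℚ T (xq j)) (h2 : (fun j => (algebraMap ℚ ℂ) (xq j)) ∈ Lc) (hL : Lc ⊆ (zkF f w hw).U)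
    (h3 : xq ∉ ExcT k (zkF f w hw).f (zkF f w hw).Tor Lc ℚ (algebraMap ℚ ℂ) (fun a : Fin h => tpi ^ (a : ℕ)) A T)
    (c : (Ix (mi (nS n)) → Fin (k + 1)) → Fin h → ℤ)
    (hc : ∀ l a, s ^ (2 * (M * exL (nS n) k)) * |(c l a : ℝ)| ≤ T ^ A)
    (h4 : arv (fun l a => (c l a : ℂ)) (fun a : Fin h => tpi ^ (a : ℕ))
      (rsW (nS n) t fun S => PB f (Lm w fun j => (algebraMap ℚ ℂ) (xq j)) S) = 0) :
    ∀ p ∈ TorG (nS n), arv (fun l a => (c l a : ℂ)) (fun a : Fin h => p.2 ^ (a : ℕ)) p.1 = 0 := by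
  classical
  obtain ⟨-, h5⟩ := good_arrZ hs ht htM h1 h2 h3 c hc h4
  have htI : ((tI (nS n) t k : ℤ) : ℂ) ≠ 0 := by exact_mod_cast tI_ne ht k
  have hcast : (fun (l : Ix (mi (nS n)) → Fin (k + 1)) (a : Fin h) => ((wI (nS n) t l : ℤ) : ℂ) * (c l a : ℂ)) =
      fun l a => (algebraMap ℚ ℂ) (zI t c l a : ℚ) := by
    funext l a
    rw [zI_map]
  rintro ⟨Y, μ⟩ hY
  set Z : ∀ S, Matrix (Fin (mi (nS n) S)) (Fin (mi (nS n) S)) ℂ := fun S =>
    Matrix.of fun l j => ((t S : ℤ) : ℂ) ^ (-ep (nS n S) j) * Y S l j with hZ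
  have hZY : rsW (nS n) t Z = Y := rsW_inv ht Y
  rw [← hZY, rsW_tor ht] at hY
  have h6 := (zkF f w hw).full (algebraMap ℚ ℂ) xq (hL h2) (fun l a => (zI t c l a : ℚ)) h5 hY.1
    (fun q : Ix (mi (nS n)) => Z q.1 q.2.1 q.2.2) (fun S => by
      have e1 := hY.2 S
      show bl (fun q : Ix (mi (nS n)) => Z q.1 q.2.1 q.2.2) S *
        ((zkF f w hw).Q S).map (MvPolynomial.aeval (fun j => (algebraMap ℚ ℂ) (xq j))) *
        (bl (fun q : Ix (mi (nS n)) => Z q.1 q.2.1 q.2.2) S).transpose = μ ^ 1 • (bm ℚ (mS n S)).map (algebraMap ℚ ℂ)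
      rw [Q_evalZ, pow_one]
      exact e1)
  have e1 := arvW ht (fun l a => (c l a : ℂ)) (fun a : Fin h => μ ^ (a : ℕ)) Z
  rw [hcast] at e1
  have e2 : arv (fun l a => (algebraMap ℚ ℂ) (zI t c l a : ℚ)) (fun a : Fin h => μ ^ (a : ℕ)) Z = 0 := h6
  rw [e2, hZY] at e1
  exact (mul_eq_zero.1 e1).resolve_left htI

/-! ### the periods as integrals, at the scaled point -/

section scale

/-- the matrices of the periods -/
noncomputable def PMZ (n : ι → ℕ) (a : (Σ i, Fin (n i + 2)) → ℂ) (e : ∀ S : Cu ι, Fin (nS n S + 1) → ℂ) (S : Cu ι) :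
    Matrix (Fin (mi (nS n) S)) (Fin (mi (nS n) S)) ℂ := PF (FS (pj a) S) (e S)

/-- the roots of the polynomials of the curves -/
noncomputable def eS (f : Sh n) (a : (Σ i, Fin (n i + 2)) → ℂ) (S : Cu ι) (r : Fin (nS n S + 1)) : ℂ :=
  u0 * EE f a (emS f S r)

theorem FS_lead {a : (Σ i, Fin (n i + 2)) → ℂ} (ha : a ∈ UU n) (f : Sh n) (S : Cu ι) :
    (FS (pj a) S).coeff (nS n S + 1) = ∏ j ∈ S.1, ld a j := by
  rw [FS_eq f ha S, Polynomial.coeff_C_mul]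
  have h1 := OH.rp_monic fun r => u0 * EE f a (emS f S r)
  have h2 := OH.rp_natDegree fun r : Fin (nS n S + 1) => u0 * EE f a (emS f S r)
  have h3 : (OH.rp fun r => u0 * EE f a (emS f S r)).coeff (nS n S + 1) = 1 := by
    have h4 : (OH.rp fun r => u0 * EE f a (emS f S r)).leadingCoeff = 1 := h1
    rw [Polynomial.leadingCoeff, h2] at h4
    exact h4
  rw [h3, mul_one]

/-- the period matrix of integrals in terms of the principal branch -/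
theorem PF_PW {k : ℕ} (F : Polynomial ℂ) {e : Fin (k + 1) → ℂ} (he : e ∈ Y890.HE.Ord k) :
    PF F (fun r => u0 * e r) = PW (scf k (F.coeff (k + 1))) e F := by
  unfold PF PW
  congr 1
  ext l j
  rw [Matrix.of_apply, Matrix.submatrix_apply, id, Matrix.smul_apply, smul_eq_mul, perG_eq]
  have h1 := perF_eq he (cst l) j
  have h2 : OH.perF (fun r => u0 * e r) (cst l) j = _ := h1
  rw [h2]
  rfl

theorem PW_neg {k : ℕ} (σ : ℂ) (e : Fin (k + 1) → ℂ) (F : Polynomial ℂ) : PW (-σ) e F = -PW σ e F := by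
  unfold PW
  rw [inv_neg, neg_smul, Matrix.submatrix_neg]
  show -((σ⁻¹ • PE w0 e).submatrix cst id) * cf k F = _
  rw [Matrix.neg_mul]

theorem scf_sgn {a : (Σ i, Fin (n i + 2)) → ℂ} (ha : a ∈ UU n) (f : Sh n) (S : Cu ι) :
    ∃ ε : ℤ, (ε = 1 ∨ ε = -1) ∧ scf (nS n S) ((FS (pj a) S).coeff (nS n S + 1)) = (ε : ℂ) * sgS n (ld a) S := by
  have h0 : (∏ j ∈ S.1, ld a j) ≠ 0 := Finset.prod_ne_zero_iff.2 fun j _ => ld_ne ha j
  rw [FS_lead ha f S]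
  have h1 := scf_sq (n := nS n S) h0
  rw [← sgS_sq n (ld_ne ha) S, sq_eq_sq_iff_eq_or_eq_neg] at h1
  rcases h1 with h1 | h1
  · exact ⟨1, Or.inl rfl, by rw [h1]; simp⟩
  · exact ⟨-1, Or.inr rfl, by rw [h1]; simp⟩

/-- scaling -/
theorem DD_scale {s : ℝ} (hs : 0 < s) {x : (Σ i, Fin (n i + 2)) → ℂ} (hx : x ∈ DD f) :
    scp n s x ∈ DD f ∧ EE f (scp n s x) = EE f x := by
  have h2 : EE f (scp n s x) = EE f x := by
    funext t
    unfold EE
    have h3 : bq (pj (scp n s x) (f.1.symm t).1) = bq (pj x (f.1.symm t).1) := (sc_mem hs (hx.1 (f.1.symm t).1)).2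
    rw [h3]
  refine ⟨⟨fun i => (sc_mem hs (hx.1 i)).1, ?_⟩, h2⟩
  rw [h2]
  exact hx.2

theorem ld_scale (s : ℝ) (x : (Σ i, Fin (n i + 2)) → ℂ) (j : ι) : ld (scp n s x) j = ((s ^ 2 : ℝ) : ℂ) * ld x j := rfl

theorem sg_scale {s : ℝ} (hs : 0 < s) {x : (Σ i, Fin (n i + 2)) → ℂ} (hx : x ∈ UU n) (S : Cu ι) :
    sgS n (ld (scp n s x)) S = (s : ℂ) ^ S.1.card * sgS n (ld x) S := by
  unfold sgS
  rw [← mul_assoc, ← Finset.prod_const, ← Finset.prod_mul_distrib]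
  congr 1
  refine Finset.prod_congr rfl fun j _ => ?_
  have hs2 : 0 < s ^ 2 := by positivity
  rw [ld_scale, mul_div_assoc, Pool.Agent.N121.OH.mul_cpow_pos hs2 (div_ne_zero (ld_ne hx j) u0_ne),
    Pool.Agent.N121.OH.sqrt_coe hs2.le, Real.sqrt_sq hs.le]
  ring

theorem FS_scale (s : ℝ) (x : (Σ i, Fin (n i + 2)) → ℂ) (S : Cu ι) :
    FS (pj (scp n s x)) S = Polynomial.C (((s : ℂ) ^ S.1.card) ^ 2) * FS (pj x) S := by
  have h1 : ∀ j, fp (pj (scp n s x) j) = Polynomial.C ((s : ℂ) ^ 2) * fp (pj x j) := by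
    intro j
    ext k
    rw [Polynomial.coeff_C_mul, Pool.Agent.N121.AH.fp_coeff, Pool.Agent.N121.AH.fp_coeff]
    split_ifs with h
    · show ((s ^ 2 : ℝ) : ℂ) * pj x j ⟨k, h⟩ = _
      push_cast
      rfl
    · rw [mul_zero]
  unfold FS
  simp only [h1]
  rw [Finset.prod_mul_distrib, Finset.prod_const, ← map_pow]
  congr 2
  ring

theorem cf_scale {k : ℕ} (F : Polynomial ℂ) (s : ℂ) (r : Fin k) (i : Fin (mm k)) :
    cf k (Polynomial.C (s ^ 2) * F) r i = (if (i : ℕ) < k / 2 then 1 else s ^ 2) * cf k F r i := by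
  unfold cf
  rw [Matrix.of_apply, Matrix.of_apply, Polynomial.coeff_C_mul]
  by_cases h1 : (i : ℕ) < k / 2
  · rw [if_pos h1, if_pos h1, if_pos h1, one_mul]
  · rw [if_neg h1, if_neg h1, if_neg h1]
    split_ifs
    · ring
    · rw [mul_zero]

/-- **scaling of the periods** -/
theorem PB_scale {s : ℝ} (hs : 0 < s) {x : (Σ i, Fin (n i + 2)) → ℂ} (hx : x ∈ DD f) (S : Cu ι)
    (l i : Fin (mS n S)) :
    PB f (scp n s x) S l i = ((s : ℂ) ^ S.1.card) ^ ep (nS n S) i * PB f x S l i := by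
  have hs0 : (s : ℂ) ^ S.1.card ≠ 0 := pow_ne_zero _ (by exact_mod_cast hs.ne')
  unfold PB PW
  rw [Matrix.mul_apply, Matrix.mul_apply, Finset.mul_sum, (DD_scale hs hx).2, sg_scale hs hx.1, FS_scale]
  refine Finset.sum_congr rfl fun k _ => ?_
  rw [Matrix.submatrix_apply, Matrix.submatrix_apply, Matrix.smul_apply, Matrix.smul_apply, smul_eq_mul, smul_eq_mul,
    cf_scale, mul_inv]
  unfold ep
  split_ifs with h1
  · rw [zpow_neg_one]
    ring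
  · rw [zpow_one]
    field_simp

/-- the integrals at the scaled point -/
theorem PMZ_scale {s : ℕ} (hs : 0 < s) {x : (Σ i, Fin (n i + 2)) → ℂ} (hx : x ∈ DD f) :
    ∃ t : Cu ι → ℤ, (∀ S, t S ≠ 0) ∧ (∀ S, |(t S : ℝ)| ≤ (s : ℝ) ^ Fintype.card ι) ∧
      PMZ n (scp n s x) (eS f (scp n s x)) = rsW (nS n) t fun S => PB f x S := by
  have hs0 : (0 : ℝ) < s := by exact_mod_cast hs
  have hs1 : (1 : ℝ) ≤ s := by exact_mod_cast hs
  have hy := (DD_scale hs0 hx).1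
  choose ε hε1 hε2 using fun S => scf_sgn hy.1 f S
  have hεε : ∀ S, ((ε S : ℤ) : ℂ) * ε S = 1 := by
    intro S
    rcases hε1 S with h | h <;> rw [h] <;> norm_num
  refine ⟨fun S => ε S * (s : ℤ) ^ S.1.card, fun S => ?_, fun S => ?_, ?_⟩
  · refine mul_ne_zero ?_ (pow_ne_zero _ (by exact_mod_cast hs.ne'))
    rcases hε1 S with h | h <;> rw [h] <;> norm_num
  · have h1 : |((ε S : ℤ) : ℝ)| = 1 := by
      rcases hε1 S with h | h <;> rw [h] <;> norm_num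
    push_cast
    rw [abs_mul, h1, one_mul, abs_of_nonneg (by positivity)]
    exact pow_le_pow_right₀ hs1 (Finset.card_le_univ _)
  · funext S
    ext l i
    have h1 : PMZ n (scp n s x) (eS f (scp n s x)) S = (ε S : ℂ) • PB f (scp n s x) S := by
      unfold PMZ
      have h2 := PF_PW (FS (pj (scp n s x)) S) (emS_ord f S hy.2)
      show PF (FS (pj (scp n s x)) S) (fun r => u0 * EE f (scp n s x) (emS f S r)) = _
      rw [h2, hε2]
      unfold PB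
      rcases hε1 S with h | h
      · rw [h]
        simp
      · rw [h]
        simp only [Int.reduceNeg, Int.cast_neg, Int.cast_one, neg_mul, one_mul, neg_smul, one_smul]
        exact PW_neg _ _ _
    rw [h1, Matrix.smul_apply, smul_eq_mul, PB_scale hs0 hx]
    unfold rsW
    rw [Matrix.of_apply]
    have h3 : (((ε S * (s : ℤ) ^ S.1.card : ℤ)) : ℂ) = ε S * ((s : ℝ) : ℂ) ^ S.1.card := by
      push_cast
      rfl
    rw [h3, mul_zpow]
    have h4 : ((ε S : ℤ) : ℂ) ^ ep (nS n S) i = ε S := by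
      unfold ep
      split_ifs
      · rw [zpow_neg_one]
        exact inv_eq_of_mul_eq_one_right (hεε S)
      · rw [zpow_one]
    rw [h4]
    ring

end scale

end Pool.Agent.N121.ZK
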