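import Pool.Agent.N121.ZK.Inv
import Pool.Agent.N121.BF.Pull
import Pool.Agent.N121.BF.Null

/-!
# All the products of the polynomials of a tuple: the curves, the orders of the roots
-/

set_option autoImplicit false
set_option linter.unusedSectionVars false

open Filter Matrix Topology

namespace Pool.Agent.N121.ZK

open Pool.Agent.Y118.HP (jm jm_apply SpS jm_det jm_transpose jm_map SpS_map qm dl dl_ne dl_mul bm bm_eq perC TV sp_gen)
open Pool.Agent.Y890.MV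
open Pool.Agent.Y890.HE
open Pool.Agent.Y890.SM
open Pool.Agent.Y890.SP (Qbar)
open Pool.Agent.N121.OH
open Pool.Agent.N121.AH
open Pool.Agent.N121.BF (fp_degree_le)

variable {ι : Type} {n : ι → ℕ}

/-- the index set of the curves: the nonempty sets of polynomials -/
abbrev Cu (ι : Type) : Type := {S : Finset ι // S.Nonempty}

/-- the degree of the polynomial of `S`, minus one -/
def nS (n : ι → ℕ) (S : Cu ι) : ℕ := (∑ j ∈ S.1, (n j + 1)) - 1

theorem nS_add (n : ι → ℕ) (S : Cu ι) : nS n S + 1 = ∑ j ∈ S.1, (n j + 1) := by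
  obtain ⟨j, hj⟩ := S.2
  have h1 : n j + 1 ≤ ∑ j ∈ S.1, (n j + 1) :=
    Finset.single_le_sum (f := fun j => n j + 1) (fun _ _ => Nat.zero_le _) hj
  unfold nS
  omega

/-- the size of the matrix of `S` -/
abbrev mS (n : ι → ℕ) (S : Cu ι) : ℕ := mm (nS n S)

/-- the product of the polynomials in `S` -/
noncomputable def FS {R : Type*} [CommRing R] (a : ∀ j, Fin (n j + 2) → R) (S : Cu ι) : Polynomial R :=
  ∏ j ∈ S.1, fp (a j)

theorem map_FS {R R' : Type*} [CommRing R] [CommRing R'] (φ : R →+* R') (a : ∀ j, Fin (n j + 2) → R) (S : Cu ι) :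
    (FS a S).map φ = FS (fun j k => φ (a j k)) S := by
  unfold FS
  rw [Polynomial.map_prod]
  exact Finset.prod_congr rfl fun j _ => map_fp φ (a j)

theorem FS_degree {R : Type*} [CommRing R] (a : ∀ j, Fin (n j + 2) → R) (S : Cu ι) :
    (FS a S).natDegree ≤ nS n S + 1 := by
  rw [nS_add]
  unfold FS
  exact (Polynomial.natDegree_prod_le _ _).trans (Finset.sum_le_sum fun j _ => fp_degree_le (a j))

theorem FS_big {R : Type*} [CommRing R] (a : ∀ j, Fin (n j + 2) → R) (S : Cu ι) {m : ℕ} (h : nS n S + 1 < m) :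
    (FS a S).coeff m = 0 := Polynomial.coeff_eq_zero_of_natDegree_lt ((FS_degree a S).trans_lt h)

/-- the branch of the square root of the leading coefficient -/
noncomputable def sgS (n : ι → ℕ) (c : ι → ℂ) (S : Cu ι) : ℂ :=
  (∏ j ∈ S.1, (w0 * (c j / u0) ^ (1 / 2 : ℂ))) * Complex.I ^ (nS n S % 2)

theorem sgS_sq (n : ι → ℕ) {c : ι → ℂ} (hc : ∀ j, c j ≠ 0) (S : Cu ι) :
    sgS n c S ^ 2 = (∏ j ∈ S.1, c j) * (-1) ^ nS n S := by
  unfold sgS
  rw [mul_pow, I_pow_sq, ← Finset.prod_pow]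
  congr 1
  refine Finset.prod_congr rfl fun j _ => ?_
  rw [mul_pow, w0_sq, sq ((c j / u0) ^ (1 / 2 : ℂ)), half_sq (div_ne_zero (hc j) u0_ne)]
  have h1 : (1 + Complex.I : ℂ) = u0 := rfl
  rw [h1, mul_div_cancel₀ _ u0_ne]

theorem sgS_ne (n : ι → ℕ) {c : ι → ℂ} (hc : ∀ j, c j ≠ 0) (S : Cu ι) : sgS n c S ≠ 0 := by
  intro h0
  have h1 := sgS_sq n hc S
  rw [h0] at h1
  have h2 : (∏ j ∈ S.1, c j) * (-1) ^ nS n S ≠ 0 :=
    mul_ne_zero (Finset.prod_ne_zero_iff.2 fun j _ => hc j) (pow_ne_zero _ (by norm_num))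
  exact h2 (by rw [← h1]; ring)

section riemann

/-- the matrix of the periods, for any branch of the root of the leading coefficient -/
noncomputable def PW {m : ℕ} (σ : ℂ) (e : Fin (m + 1) → ℂ) (F : Polynomial ℂ) : Matrix (Fin (mm m)) (Fin (mm m)) ℂ :=
  (σ⁻¹ • PE w0 e).submatrix cst id * cf m F

theorem PW_riemann {m : ℕ} {σ c : ℂ} (hc : c ≠ 0) (hσ : σ ^ 2 = c * (-1) ^ m) {e : Fin (m + 1) → ℂ} (he : e ∈ Ord m)
    {F : Polynomial ℂ} (hF : F = Polynomial.C c * rp fun r => u0 * e r) (hd : ∀ k, m + 1 < k → F.coeff k = 0) :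
    PW σ e F * q0 ℂ m * (PW σ e F).transpose = tpi • (bm ℚ (mm m)).map (algebraMap ℚ ℂ) := by
  have hσ0 : σ ≠ 0 := by
    rintro rfl
    have h1 : c * (-1) ^ m ≠ 0 := mul_ne_zero hc (pow_ne_zero _ (by norm_num))
    exact h1 (by rw [← hσ]; ring)
  have h1 := PE_riemannG w0_sq w0_ne he
  have h1' : PE w0 e * qm m (rp fun r => u0 * e r) * (PE w0 e).transpose =
      ((-1) ^ m * tpi) • (bm ℚ m).map (algebraMap ℚ ℂ) := h1
  have hG : (σ⁻¹ • PE w0 e) * qm m F * (σ⁻¹ • PE w0 e).transpose = tpi • (bm ℚ m).map (algebraMap ℚ ℂ) := by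
    rw [hF, qm_C_mul, Matrix.transpose_smul, Matrix.smul_mul, Matrix.mul_smul, Matrix.smul_mul, Matrix.mul_smul,
      Matrix.smul_mul, h1', smul_smul, smul_smul, smul_smul]
    congr 1
    field_simp
    rw [hσ]
  unfold PW
  rw [Matrix.transpose_mul]
  have h2 : (σ⁻¹ • PE w0 e).submatrix cst id * cf m F * q0 ℂ m * ((cf m F).transpose *
      ((σ⁻¹ • PE w0 e).submatrix cst id).transpose) =
      (σ⁻¹ • PE w0 e).submatrix cst id * (cf m F * q0 ℂ m * (cf m F).transpose) *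
        ((σ⁻¹ • PE w0 e).submatrix cst id).transpose := by
    simp only [Matrix.mul_assoc]
  rw [h2, cf_q0 F hd]
  have h3 : (σ⁻¹ • PE w0 e).submatrix (cst (n := m)) id * qm m F * ((σ⁻¹ • PE w0 e).submatrix cst id).transpose =
      ((σ⁻¹ • PE w0 e) * qm m F * (σ⁻¹ • PE w0 e).transpose).submatrix cst cst := by
    ext r s
    simp only [Matrix.mul_apply, Matrix.submatrix_apply, Matrix.transpose_apply, id]
  rw [h3, hG]
  ext r s
  rfl

end riemann

section shuffle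

variable [Fintype ι]

/-- the number of all roots, minus one -/
def NN (n : ι → ℕ) : ℕ := (∑ j, (n j + 1)) - 1

/-- the orders of the roots -/
abbrev Sh (n : ι → ℕ) : Type :=
  {f : (Σ j, Fin (n j + 1)) ≃ Fin (NN n + 1) // ∀ j (r s : Fin (n j + 1)), r < s → f ⟨j, r⟩ < f ⟨j, s⟩}

/-- the set of the roots of the polynomial of `S` -/
def TS (f : Sh n) (S : Cu ι) : Finset (Fin (NN n + 1)) :=
  (S.1.sigma fun j => (Finset.univ : Finset (Fin (n j + 1)))).map f.1.toEmbedding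

theorem TS_card (f : Sh n) (S : Cu ι) : (TS f S).card = nS n S + 1 := by
  unfold TS
  rw [Finset.card_map, Finset.card_sigma, nS_add]
  simp

theorem mem_TS (f : Sh n) (S : Cu ι) (k : Fin (NN n + 1)) : k ∈ TS f S ↔ (f.1.symm k).1 ∈ S.1 := by
  unfold TS
  rw [Finset.mem_map]
  constructor
  · rintro ⟨⟨j, r⟩, h1, rfl⟩
    rw [Finset.mem_sigma] at h1
    show (f.1.symm (f.1 ⟨j, r⟩)).1 ∈ S.1
    rw [Equiv.symm_apply_apply]
    exact h1.1
  · intro h
    refine ⟨f.1.symm k, Finset.mem_sigma.2 ⟨h, Finset.mem_univ _⟩, ?_⟩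
    show f.1 (f.1.symm k) = k
    rw [Equiv.apply_symm_apply]

/-- the roots of the polynomial of `S` in increasing order -/
def emS (f : Sh n) (S : Cu ι) : Fin (nS n S + 1) ↪o Fin (NN n + 1) := (TS f S).orderEmbOfFin (TS_card f S)

theorem emS_range (f : Sh n) (S : Cu ι) (k : Fin (NN n + 1)) : (∃ r, emS f S r = k) ↔ k ∈ TS f S := by
  have h1 := Finset.range_orderEmbOfFin (TS f S) (TS_card f S)
  have h2 : k ∈ Set.range (emS f S) ↔ k ∈ (TS f S : Set (Fin (NN n + 1))) := by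
    rw [← h1]
    rfl
  exact h2

theorem emS_inj (f : Sh n) (S S' : Cu ι) (h : ∀ k, (∃ r, emS f S r = k) ↔ (∃ r, emS f S' r = k)) : S = S' := by
  refine Subtype.ext (Finset.ext fun j => ?_)
  have h1 := h (f.1 ⟨j, 0⟩)
  rw [emS_range, emS_range, mem_TS, mem_TS, Equiv.symm_apply_apply] at h1
  exact h1

/-- the product over the roots of the polynomial of `S` -/
theorem emS_prod {M : Type} [CommMonoid M] (f : Sh n) (S : Cu ι) (g : Fin (NN n + 1) → M) :
    ∏ r, g (emS f S r) = ∏ j ∈ S.1, ∏ r : Fin (n j + 1), g (f.1 ⟨j, r⟩) := by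
  have h1 : Finset.univ.map (emS f S).toEmbedding = TS f S := by
    ext k
    rw [Finset.mem_map, ← emS_range]
    constructor
    · rintro ⟨r, _, h⟩
      exact ⟨r, h⟩
    · rintro ⟨r, h⟩
      exact ⟨r, Finset.mem_univ _, h⟩
  have h2 : ∏ r, g (emS f S r) = ∏ k ∈ TS f S, g k := by
    rw [← h1, Finset.prod_map]
    rfl
  rw [h2]
  unfold TS
  rw [Finset.prod_map, Finset.prod_sigma]
  rfl

/-- all roots, divided by `u0`, in the order `f` -/
noncomputable def EE (f : Sh n) (a : (Σ i, Fin (n i + 2)) → ℂ) (t : Fin (NN n + 1)) : ℂ :=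
  rt u0 (bq (pj a (f.1.symm t).1)) (f.1.symm t).2

theorem EE_f (f : Sh n) (a : (Σ i, Fin (n i + 2)) → ℂ) (j : ι) (r : Fin (n j + 1)) :
    EE f a (f.1 ⟨j, r⟩) = rt u0 (bq (pj a j)) r := by
  unfold EE
  rw [Equiv.symm_apply_apply]

/-- the domain -/
def DD (f : Sh n) : Set ((Σ i, Fin (n i + 2)) → ℂ) := {a | a ∈ UU n ∧ EE f a ∈ Ord (NN n)}

theorem emS_ord (f : Sh n) (S : Cu ι) {e : Fin (NN n + 1) → ℂ} (he : e ∈ Ord (NN n)) :
    (fun r => e (emS f S r)) ∈ Ord (nS n S) := fun _ _ h => he _ _ ((emS f S).strictMono h)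

/-- the leading coefficients -/
def ld (a : (Σ i, Fin (n i + 2)) → ℂ) (j : ι) : ℂ := pj a j (Fin.last (n j + 1))

theorem ld_ne {a : (Σ i, Fin (n i + 2)) → ℂ} (ha : a ∈ UU n) (j : ι) : ld a j ≠ 0 := lead_ne (ha j)

theorem FS_eq (f : Sh n) {a : (Σ i, Fin (n i + 2)) → ℂ} (ha : a ∈ UU n) (S : Cu ι) :
    FS (pj a) S = Polynomial.C (∏ j ∈ S.1, ld a j) * rp fun r => u0 * EE f a (emS f S r) := by
  have h1 : (rp fun r => u0 * EE f a (emS f S r)) = ∏ j ∈ S.1, rp fun r : Fin (n j + 1) => u0 * rt u0 (bq (pj a j)) r := by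
    unfold rp
    rw [emS_prod f S fun k => Polynomial.X - Polynomial.C (u0 * EE f a k)]
    refine Finset.prod_congr rfl fun j _ => Finset.prod_congr rfl fun r _ => ?_
    rw [EE_f]
  rw [h1, map_prod, ← Finset.prod_mul_distrib]
  unfold FS
  refine Finset.prod_congr rfl fun j _ => ?_
  rw [fp_eq (lead_ne (ha j)), rt_eq (ha j).2]
  rfl

/-- the matrix of the periods of the curve of `S` -/
noncomputable def PB (f : Sh n) (a : (Σ i, Fin (n i + 2)) → ℂ) (S : Cu ι) : Matrix (Fin (mS n S)) (Fin (mS n S)) ℂ :=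
  PW (sgS n (ld a) S) (fun r => EE f a (emS f S r)) (FS (pj a) S)

theorem PB_riemann {f : Sh n} {a : (Σ i, Fin (n i + 2)) → ℂ} (ha : a ∈ DD f) (S : Cu ι) :
    PB f a S * q0 ℂ (nS n S) * (PB f a S).transpose = tpi • (bm ℚ (mS n S)).map (algebraMap ℚ ℂ) :=
  PW_riemann (Finset.prod_ne_zero_iff.2 fun j _ => ld_ne ha.1 j) (sgS_sq n (ld_ne ha.1) S) (emS_ord f S ha.2)
    (FS_eq f ha.1 S) fun _ hk => FS_big _ S hk

/-! ### parametrisation by the leading coefficients and the roots -/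

/-- the coefficients -/
noncomputable def PhS (f : Sh n) (c : ι → ℂ) (e : Fin (NN n + 1) → ℂ) : (Σ i, Fin (n i + 2)) → ℂ :=
  Ph n c fun x => e (f.1 x)

theorem ord_sub (f : Sh n) {e : Fin (NN n + 1) → ℂ} (he : e ∈ Ord (NN n)) (j : ι) :
    pj (fun x => e (f.1 x)) j ∈ Ord (n j) := fun r s h => he _ _ (f.2 j r s h)

theorem PhS_mem (f : Sh n) {c : ι → ℂ} {e : Fin (NN n + 1) → ℂ} (hc : ∀ i, c i / u0 ∈ Complex.slitPlane)
    (he : e ∈ Ord (NN n)) : PhS f c e ∈ UU n := Ph_mem hc fun j => ord_sub f he j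

theorem slit_ne {c : ℂ} (hc : c / u0 ∈ Complex.slitPlane) : c ≠ 0 := by
  rintro rfl
  exact Complex.slitPlane_ne_zero hc (zero_div _)

theorem EE_PhS (f : Sh n) {c : ι → ℂ} {e : Fin (NN n + 1) → ℂ} (hc : ∀ i, c i / u0 ∈ Complex.slitPlane)
    (he : e ∈ Ord (NN n)) : EE f (PhS f c e) = e := by
  funext t
  obtain ⟨⟨j, r⟩, rfl⟩ := f.1.surjective t
  rw [EE_f]
  unfold PhS
  rw [pj_Ph, va_rt (slit_ne (hc j)) (ord_sub f he j)]
  rfl

theorem PhS_DD (f : Sh n) {c : ι → ℂ} {e : Fin (NN n + 1) → ℂ} (hc : ∀ i, c i / u0 ∈ Complex.slitPlane)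
    (he : e ∈ Ord (NN n)) : PhS f c e ∈ DD f := ⟨PhS_mem f hc he, by rw [EE_PhS f hc he]; exact he⟩

theorem ld_PhS (f : Sh n) (c : ι → ℂ) (e : Fin (NN n + 1) → ℂ) : ld (PhS f c e) = c := by
  funext j
  unfold ld PhS
  rw [pj_Ph, va_last]

theorem PhS_surj {f : Sh n} {a : (Σ i, Fin (n i + 2)) → ℂ} (ha : a ∈ UU n) : PhS f (ld a) (EE f a) = a := by
  have h1 : (fun x => EE f a (f.1 x)) = fun q : Σ i, Fin (n i + 1) => rt u0 (bq (pj a q.1)) q.2 := by
    funext ⟨j, r⟩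
    exact EE_f f a j r
  unfold PhS
  rw [h1]
  exact Ph_surj ha

end shuffle

end Pool.Agent.N121.ZK
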