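import Pool.Agent.N121.ZK.Mon
import Pool.Agent.N121.MK.Dom

/-!
# The domains; the families
-/

set_option autoImplicit false
set_option linter.unusedSectionVars false

open Filter Matrix Topology

namespace Pool.Agent.N121.ZK

open Pool.Agent.Y118.HP (jm jm_apply SpS jm_det jm_transpose jm_map SpS_map qm dl dl_ne dl_mul bm bm_eq perC TV sp_gen)
open Pool.Agent.Y890.MV
open Pool.Agent.Y890.HE
open Pool.Agent.Y890.SM
open Pool.Agent.Y890.SP (Qbar)
open Pool.Agent.N121.OH
open Pool.Agent.N121.AH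
open Pool.Agent.N121.BF (Lm Lm_cont LmC LmC_apply sbl sh sm Lm_sm Lm_sh sh_self evX_sbl pre_conn)
open Pool.Agent.N156.HC (MJ PF)

variable {ι : Type} {n : ι → ℕ} [Fintype ι]

theorem pj_diff [DecidableEq ι] (j : ι) : Differentiable ℂ fun a : (Σ i, Fin (n i + 2)) → ℂ => pj a j := by
  refine differentiable_pi.2 fun r => ?_
  show Differentiable ℂ fun a : (Σ i, Fin (n i + 2)) → ℂ => a ⟨j, r⟩
  fun_prop

theorem EE_diffAt [DecidableEq ι] (f : Sh n) {a : (Σ i, Fin (n i + 2)) → ℂ} (ha : a ∈ UU n) :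
    DifferentiableAt ℂ (EE f) a := by
  refine differentiableAt_pi.2 fun t => ?_
  unfold EE
  set j := (f.1.symm t).1 with hj
  have h1 : DifferentiableAt ℂ (rt u0) (bq (pj a j)) :=
    (rt_diff u0_ne (n j)).differentiableAt ((Un_open u0_ne (n j)).mem_nhds (ha j).2)
  have h2 : DifferentiableAt ℂ (fun b : Fin (n j + 2) → ℂ => rt u0 (bq b)) (pj a j) :=
    DifferentiableAt.comp (pj a j) h1 (bq_diffAt (lead_ne (ha j)))
  have h3 : DifferentiableAt ℂ (fun a : (Σ i, Fin (n i + 2)) → ℂ => rt u0 (bq (pj a j))) a :=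
    DifferentiableAt.comp a (g := fun b : Fin (n j + 2) → ℂ => rt u0 (bq b))
      (f := fun a : (Σ i, Fin (n i + 2)) → ℂ => pj a j) h2 (pj_diff j a)
  exact differentiableAt_pi.1 h3 _

theorem DD_open [DecidableEq ι] (f : Sh n) : IsOpen (DD f) := by
  have h1 : ContinuousOn (EE f) (UU n) := fun a ha => (EE_diffAt f ha).continuousAt.continuousWithinAt
  exact h1.isOpen_inter_preimage (ahF n).isOpen (Ord_open (NN n))

theorem DD_conn [DecidableEq ι] (f : Sh n) : IsPreconnected (DD f) := by
  have h1 : DD f = (fun ce : (ι → ℂ) × (Fin (NN n + 1) → ℂ) => PhS f ce.1 ce.2) ''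
      ((Set.univ.pi fun _ => {c : ℂ | c / u0 ∈ Complex.slitPlane}) ×ˢ (Ord (NN n))) := by
    ext a
    constructor
    · intro ha
      refine ⟨(ld a, EE f a), ⟨fun i _ => (ha.1 i).1, ha.2⟩, PhS_surj ha.1⟩
    · rintro ⟨⟨c, e⟩, ⟨hc, he⟩, rfl⟩
      exact PhS_DD f (fun i => hc i (Set.mem_univ i)) he
  rw [h1]
  refine IsPreconnected.image ?_ _ ?_
  · exact (isPreconnected_univ_pi fun _ => slit_conn).prod (Ord_convex (NN n)).isPreconnected
  · have h2 : Continuous fun ce : (ι → ℂ) × (Fin (NN n + 1) → ℂ) => PhS f ce.1 ce.2 := by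
      refine (Ph_cont n).comp (Continuous.prodMk continuous_fst ?_)
      exact continuous_pi fun x => (continuous_apply _).comp continuous_snd
    exact h2.continuousOn

theorem DD_nonempty (f : Sh n) : (DD f).Nonempty := by
  obtain ⟨e, he⟩ := Ord_nonempty (NN n)
  refine ⟨PhS f (fun _ => 1) e, PhS_DD f (fun _ => ?_) he⟩
  left
  unfold u0
  simp [Complex.normSq_apply]

/-! ### analyticity -/

theorem ld_diff [DecidableEq ι] (j : ι) : Differentiable ℂ fun a : (Σ i, Fin (n i + 2)) → ℂ => ld a j := by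
  show Differentiable ℂ fun a : (Σ i, Fin (n i + 2)) → ℂ => a ⟨j, Fin.last (n j + 1)⟩
  fun_prop

theorem prod_diffAt {E : Type} [NormedAddCommGroup E] [NormedSpace ℂ E] (S : Finset ι) {g : ι → E → ℂ} {a : E}
    (h : ∀ j, DifferentiableAt ℂ (g j) a) : DifferentiableAt ℂ (fun a => ∏ j ∈ S, g j a) a := by
  classical
  induction S using Finset.induction_on with
  | empty =>
    simp only [Finset.prod_empty]
    exact differentiableAt_const _
  | insert j S hj ih =>
    simp only [Finset.prod_insert hj]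
    exact (h j).mul ih

theorem sg_diffAt [DecidableEq ι] (S : Cu ι) {a : (Σ i, Fin (n i + 2)) → ℂ} (ha : a ∈ UU n) :
    DifferentiableAt ℂ (fun a : (Σ i, Fin (n i + 2)) → ℂ => (sgS n (ld a) S)⁻¹) a := by
  refine DifferentiableAt.fun_inv ?_ (sgS_ne n (ld_ne ha) S)
  unfold sgS
  refine DifferentiableAt.mul_const ?_ _
  refine prod_diffAt S.1 (g := fun j (a : (Σ i, Fin (n i + 2)) → ℂ) => Pool.Agent.N121.AH.w0 * (ld a j / u0) ^ (1 / 2 : ℂ)) fun j => ?_
  refine DifferentiableAt.const_mul ?_ _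
  have h1 : DifferentiableAt ℂ (fun a : (Σ i, Fin (n i + 2)) → ℂ => ld a j / u0) a := by
    show DifferentiableAt ℂ (fun a : (Σ i, Fin (n i + 2)) → ℂ => a ⟨j, Fin.last (n j + 1)⟩ / u0) a
    fun_prop
  have h2 : ld a j / u0 ∈ Complex.slitPlane := (ha j).1
  exact h1.cpow (differentiableAt_const _) h2

theorem coeff_diff [DecidableEq ι] (S : Finset ι) : ∀ m : ℕ,
    Differentiable ℂ fun a : (Σ i, Fin (n i + 2)) → ℂ => (∏ j ∈ S, fp (pj a j)).coeff m := by
  induction S using Finset.induction_on with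
  | empty =>
    intro m
    simp only [Finset.prod_empty]
    exact differentiable_const _
  | insert j S hj ih =>
    intro m
    simp only [Finset.prod_insert hj, Polynomial.coeff_mul]
    refine Differentiable.fun_sum fun x _ => Differentiable.fun_mul ?_ (ih x.2)
    simp only [fp_coeff]
    split_ifs with h
    · show Differentiable ℂ fun a : (Σ i, Fin (n i + 2)) → ℂ => a ⟨j, ⟨x.1, h⟩⟩
      fun_prop
    · exact differentiable_const _

theorem cfFS_diff [DecidableEq ι] (S : Cu ι) (k : Fin (nS n S)) (i : Fin (mS n S)) :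
    Differentiable ℂ fun a : (Σ i, Fin (n i + 2)) → ℂ => cf (nS n S) (FS (pj a) S) k i := by
  unfold cf
  simp only [Matrix.of_apply]
  split_ifs
  · exact differentiable_const _
  · exact differentiable_const _
  · exact (coeff_diff S.1 _).const_mul _
  · exact differentiable_const _

theorem PB_an [DecidableEq ι] (f : Sh n) (S : Cu ι) (l i : Fin (mS n S)) :
    AnalyticOnNhd ℂ (fun a : (Σ i, Fin (n i + 2)) → ℂ => PB f a S l i) (DD f) := by
  refine Pool.Agent.Y785.MV.Osg.t _ _ (DD_open f) _ ?_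
  intro a ha
  refine DifferentiableAt.differentiableWithinAt ?_
  unfold PB PW
  simp only [Matrix.mul_apply, Matrix.submatrix_apply, Matrix.smul_apply, smul_eq_mul, id]
  refine DifferentiableAt.fun_sum fun k _ => ?_
  refine DifferentiableAt.mul ((sg_diffAt S ha.1).mul ?_) (cfFS_diff S k i a)
  unfold PE
  simp only [Matrix.of_apply]
  refine DifferentiableAt.const_mul (DifferentiableAt.const_mul ?_ _) _
  have h1 : DifferentiableAt ℂ (fun e : Fin (nS n S + 1) → ℂ => perC e (cst l) k) (fun r => EE f a (emS f S r)) :=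
    (differentiableOn_perC (cst l) k).differentiableAt ((Ord_open _).mem_nhds (emS_ord f S ha.2))
  have h2 : DifferentiableAt ℂ (fun (a : (Σ i, Fin (n i + 2)) → ℂ) (r : Fin (nS n S + 1)) => EE f a (emS f S r)) a :=
    differentiableAt_pi.2 fun r => differentiableAt_pi.1 (EE_diffAt f ha.1) (emS f S r)
  exact DifferentiableAt.comp a (g := fun e : Fin (nS n S + 1) → ℂ => perC e (cst l) k)
    (f := fun (a : (Σ i, Fin (n i + 2)) → ℂ) (r : Fin (nS n S + 1)) => EE f a (emS f S r)) h1 h2

variable [DecidableEq ι] {q : ℕ}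

/-- the parameters -/
abbrev XZ (n : ι → ℕ) (q : ℕ) : Type := (Σ i, Fin (n i + 2)) × Fin (q + 1)

/-- all products of polynomials with coefficients in a finitely generated group -/
noncomputable def zkF (f : Sh n) (w : Fin (q + 1) → ℂ) (hw : w 0 = 1) : SympFam (XZ n q) (mS n) where
  U := Lm w ⁻¹' DD f
  isOpen := (DD_open f).preimage (Lm_cont w)
  conn := pre_conn hw (DD_conn f)
  nonempty := by
    obtain ⟨x, hx⟩ := DD_nonempty f
    refine ⟨sm x, ?_⟩
    show Lm w (sm x) ∈ DD f
    rw [Lm_sm hw]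
    exact hx
  P := fun S y => PB f (Lm w y) S
  an := fun S l j => by
    intro y hy
    have h1 := PB_an f S l j (Lm w y) hy
    have h2 : AnalyticAt ℂ (fun y => Lm w y) y := by
      have h3 : (fun y : (Σ i, Fin (n i + 2)) × Fin (q + 1) → ℂ => Lm w y) = fun y => LmC w y := by
        funext y
        rw [LmC_apply]
      rw [h3]
      exact (LmC w).analyticAt y
    exact AnalyticAt.fun_comp (g := fun x => PB f x S l j) h1 h2
  w := fun _ => 1
  Q := fun S => (q0 Qbar (nS n S)).map MvPolynomial.C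
  Q_alt := fun S => by
    rw [← Matrix.transpose_map, q0_transpose]
    refine Matrix.ext fun a b => ?_
    rw [Matrix.map_apply, Matrix.neg_apply, Matrix.neg_apply, Matrix.map_apply, map_neg]
  J := fun S => bm ℚ (mS n S)
  J_alt := fun i => by
    rw [bm_eqQ, Matrix.transpose_smul, jm_transpose, smul_neg]
  J_det := fun S => by
    rw [bm_eqQ, Matrix.det_smul]
    exact mul_ne_zero (pow_ne_zero _ (by norm_num)) (jm_det (mm_even (nS n S)))
  riemann := fun y hy S => by
    have h1 : ((q0 Qbar (nS n S)).map MvPolynomial.C).map (MvPolynomial.aeval y) = q0 ℂ (nS n S) := by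
      rw [← q0_map (algebraMap Qbar ℂ)]
      refine Matrix.ext fun r s => ?_
      rw [Matrix.map_apply, Matrix.map_apply, Matrix.map_apply, MvPolynomial.aeval_C]
    rw [h1, pow_one]
    exact PB_riemann hy S
  Γ := {γ | ∀ S, γ S ∈ SpS ℚ (mS n S)}
  pres := fun γ hγ S => bm_pres (hγ S)
  mon := fun γ hγ p hp => by
    have key : ∀ y ∈ Lm w ⁻¹' DD f, ∀ x ∈ DD f,
        evX x (fun q => ((γ q.1).map (algebraMap ℚ ℂ) * PB f x q.1) q.2.1 q.2.2) (MvPolynomial.map (sbl w y) p) = 0 := by
      intro y hy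
      refine zk_mon f (g := fun S => (γ S).map (algebraMap ℚ ℂ)) (fun S => SpS_map (algebraMap ℚ ℂ) (hγ S))
        (MvPolynomial.map (sbl w y) p) ?_
      intro x hx
      rw [evX_sbl]
      have h1 : sh w y x ∈ Lm w ⁻¹' DD f := by
        show Lm w (sh w y x) ∈ DD f
        rw [Lm_sh hw]
        exact hx
      have h2 := hp _ h1
      rw [Lm_sh hw] at h2
      exact h2
    intro y hy
    have h1 := key y hy (Lm w y) hy
    rw [evX_sbl, sh_self] at h1
    exact h1
  dense := fun R hR M hM => dense_prod (fun S => mm_even (nS n S)) R (fun g hg => hR g hg) M fun S => sp_of_bm (hM S)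

end Pool.Agent.N121.ZK
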