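import Pool.Agent.N121.ZK.Pure
import Pool.Agent.N156.HC.Fam

/-!
# Hyperelliptic curves with branch points in subsets of a common set: transvections of one curve
-/

set_option autoImplicit false
set_option linter.unusedSectionVars false

open Complex Set Filter Topology Matrix

namespace Pool.Agent.N121.ZK

open Pool.Agent.Y118.HP
open Pool.Agent.N156.HC
open Pool.Agent.Y890.MV (evX evM evM_an)
open Pool.Agent.Y890.HE (Ord Ord_open Ord_convex Ord_real Ord_nonempty fH fH_an FM mt legendreC real_zero
  strictMono_of_mem)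
open Pool.Agent.Y890.SM (Ix)

variable {N : ℕ} {ι : Type} {n : ι → ℕ} {em : ∀ j, Fin (n j + 1) ↪o Fin (N + 1)}

variable [Fintype ι] [DecidableEq ι]

/-- relations between the periods of all the curves are preserved by the transvections for one of them -/
theorem inv_TV1 (hd : ∀ j j' : ι, (∀ k, (∃ r, em j r = k) ↔ (∃ r, em j' r = k)) → j = j')
    (p : MvPolynomial (Ix n) (MvPolynomial (Fin (N + 1)) ℂ))
    (hp : ∀ x ∈ Ord N, evX x (fun q => PF em x q.1 q.2.1 q.2.2) p = 0)
    (j : ι) (v : Fin (n j) → ℂ) (s : ℂ) :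
    ∀ x ∈ Ord N, evX x (fun q => ((Pi.mulSingle j (TV v s) : MJ n) * PF em x) q.1 q.2.1 q.2.2) p = 0 := by
  classical
  set g : Matrix (Fin (n j)) (Fin (n j)) ℂ := TV v s with hg
  obtain ⟨e0, he0⟩ : ∃ e0 : Fin (N + 1) → ℝ, (fun i => (e0 i : ℂ)) ∈ Ord N :=
    ⟨fun i => (i : ℝ), Ord_real (fun i k h => by
      show ((i : ℕ) : ℝ) < ((k : ℕ) : ℝ)
      exact_mod_cast h)⟩
  refine real_zero (Ord_open N) (Ord_convex N).isPreconnected he0 ?_ ?_
  · have h1 : (fun x : Fin (N + 1) → ℂ => evX x (fun q => ((Pi.mulSingle j g : MJ n) * PF em x) q.1 q.2.1 q.2.2) p) =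
        fun x => evM (fun q x => ((Pi.mulSingle j g : MJ n) * PF em x) q.1 q.2.1 q.2.2) x p := rfl
    rw [h1]
    refine evM_an (fun q => ?_) p
    intro x hx
    simp only [Pi.mul_apply, Matrix.mul_apply]
    refine Finset.analyticAt_fun_sum _ fun k _ => ?_
    exact analyticAt_const.mul (PF_an q.1 k q.2.2 x hx)
  · intro x hx
    have hx' := strictMono_of_mem hx
    set m : Fin (N + 1) := em j 0 with hm
    have ha := av_mono m hx'
    have hj : ∃ r, em j r = m := ⟨0, rfl⟩
    obtain ⟨ε, hε, hgap⟩ := gap_nhds (av_gap m hx')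
    have hId : speJ em m (fun i => (x i : ℂ)) p ∈ IdJ (ph em m) (av m x) m := by
      refine eq_zero_of_real ha m (differentiableOn_evJ ha m _) (show x m - ε < x m by linarith) hgap ?_
      intro t ht
      rw [speJ_ev]
      have h2 : Function.update (fun i => (x i : ℂ)) m (t : ℂ) ∈ Ord N := by
        rw [upd_cast]
        exact Ord_real (er_strictMono ha (hgap t ht))
      have h3 : glJ em m (fun i => (x i : ℂ)) (PMJ (ph em m) (av m x) m (t : ℂ)) =
          PF em (Function.update (fun i => (x i : ℂ)) m (t : ℂ)) := by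
        funext j'
        by_cases h : ∃ r, em j' r = m
        · have h4 := glJ_of em m (fun i => (x i : ℂ)) (PMJ (ph em m) (av m x) m (t : ℂ)) ⟨j', h⟩
          simp only at h4
          rw [h4, PMJ_eq]
        · rw [glJ_not em m _ _ h]
          unfold PF
          congr 1
          funext r
          rw [Function.update_of_ne]
          exact fun hr => h ⟨r, hr⟩
      rw [h3]
      exact hp _ h2
    have hS := single_TV (φ := ph em m) (ph_inj em m hd) ha m ⟨j, hj⟩ v s
    have key := mem_MonJ'.1 hS _ hId (x m : ℂ) (av_gap m hx').mem_Dm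
    rw [speJ_ev] at key
    have h5 : Function.update (fun i => (x i : ℂ)) m (x m : ℂ) = fun i => (x i : ℂ) := Function.update_eq_self m _
    have h6 : glJ em m (fun i => (x i : ℂ)) ((Pi.mulSingle (⟨j, hj⟩ : Im em m) g : MJ fun j : Im em m => n j.1) *
        PMJ (ph em m) (av m x) m (x m : ℂ)) = (Pi.mulSingle j g : MJ n) * PF em (fun i => (x i : ℂ)) := by
      funext j'
      by_cases h : ∃ r, em j' r = m
      · have h4 := glJ_of em m (fun i => (x i : ℂ)) ((Pi.mulSingle (⟨j, hj⟩ : Im em m) g : MJ fun j : Im em m => n j.1) *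
          PMJ (ph em m) (av m x) m (x m : ℂ)) ⟨j', h⟩
        simp only at h4
        rw [h4, Pi.mul_apply, Pi.mul_apply, PMJ_eq, h5]
        by_cases hjj : j' = j
        · subst hjj
          rw [Pi.mulSingle_eq_same, Pi.mulSingle_eq_same]
        · rw [Pi.mulSingle_eq_of_ne hjj, Pi.mulSingle_eq_of_ne (fun h7 => hjj (congrArg Subtype.val h7))]
      · rw [glJ_not em m _ _ h, Pi.mul_apply, Pi.mulSingle_eq_of_ne, one_mul]
        rintro rfl
        exact h hj
    rw [h5, h6] at key
    exact key

end Pool.Agent.N121.ZK
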