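import Pool.Agent.N121.ZK.Dom

/-!
# The real points outside the domains
-/

set_option autoImplicit false
set_option linter.unusedSectionVars false

open Filter Matrix Topology MeasureTheory

namespace Pool.Agent.N121.ZK

open Pool.Agent.Y890.MV
open Pool.Agent.Y890.HE
open Pool.Agent.Y890.SM
open Pool.Agent.N121.OH
open Pool.Agent.N121.AH
open Pool.Agent.N121.BF (Lm Lm_cont fp_inj fp_degree_le null_B)

/-! ### translations -/

section trans

variable {m : ℕ} {R : Type*} [CommRing R]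

/-- translation of the roots -/
noncomputable def Tr (τ : R) (a : Fin (m + 2) → R) (k : Fin (m + 2)) : R :=
  ((fp a).comp (Polynomial.X - Polynomial.C τ)).coeff (k : ℕ)

theorem fp_Tr [Nontrivial R] [NoZeroDivisors R] (τ : R) (a : Fin (m + 2) → R) :
    fp (Tr τ a) = (fp a).comp (Polynomial.X - Polynomial.C τ) := by
  ext k
  rw [fp_coeff]
  split_ifs with h
  · rfl
  · symm
    apply Polynomial.coeff_eq_zero_of_natDegree_lt
    rw [Polynomial.natDegree_comp, Polynomial.natDegree_X_sub_C, mul_one]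
    have := fp_degree_le a
    omega

theorem fp_add (a b : Fin (m + 2) → R) : fp (a + b) = fp a + fp b := by
  unfold fp
  simp [add_mul, Finset.sum_add_distrib]

theorem fp_smul (c : R) (a : Fin (m + 2) → R) : fp (c • a) = Polynomial.C c * fp a := by
  unfold fp
  simp [Finset.mul_sum, mul_assoc]

theorem Tr_add (τ : R) (a b : Fin (m + 2) → R) : Tr τ (a + b) = Tr τ a + Tr τ b := by
  funext k
  unfold Tr
  rw [fp_add, Polynomial.add_comp, Polynomial.coeff_add]
  rfl

theorem Tr_smul (τ c : R) (a : Fin (m + 2) → R) : Tr τ (c • a) = c • Tr τ a := by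
  funext k
  unfold Tr
  rw [fp_smul, Polynomial.mul_comp, Polynomial.C_comp, Polynomial.coeff_C_mul]
  rfl

theorem Tr_Tr [Nontrivial R] [NoZeroDivisors R] (σ τ : R) (a : Fin (m + 2) → R) : Tr σ (Tr τ a) = Tr (σ + τ) a := by
  apply fp_inj
  rw [fp_Tr, fp_Tr, fp_Tr, Polynomial.comp_assoc]
  congr 1
  rw [Polynomial.sub_comp, Polynomial.X_comp, Polynomial.C_comp, map_add]
  ring

theorem Tr_zero [Nontrivial R] [NoZeroDivisors R] (a : Fin (m + 2) → R) : Tr 0 a = a := by
  apply fp_inj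
  rw [fp_Tr, map_zero, sub_zero, Polynomial.comp_X]

theorem map_Tr {S : Type*} [CommRing S] (φ : R →+* S) (τ : R) (a : Fin (m + 2) → R) (k : Fin (m + 2)) :
    φ (Tr τ a k) = Tr (φ τ) (fun i => φ (a i)) k := by
  unfold Tr
  rw [← Polynomial.coeff_map, Polynomial.map_comp, map_fp, Polynomial.map_sub, Polynomial.map_X, Polynomial.map_C]

end trans

theorem fp_va {m : ℕ} (c : ℂ) (e : Fin (m + 1) → ℂ) : fp (va c e) = Polynomial.C c * rp fun r => u0 * e r := by
  ext k
  rw [fp_coeff, Polynomial.coeff_C_mul]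
  split_ifs with h
  · rfl
  · rw [Polynomial.coeff_eq_zero_of_natDegree_lt, mul_zero]
    rw [rp_natDegree]
    omega

theorem Tr_va {m : ℕ} (τ c : ℂ) (e : Fin (m + 1) → ℂ) : Tr τ (va c e) = va c fun r => e r + τ / u0 := by
  apply fp_inj
  rw [fp_Tr, fp_va, fp_va, Polynomial.mul_comp, Polynomial.C_comp]
  congr 1
  unfold rp
  rw [Polynomial.prod_comp]
  refine Finset.prod_congr rfl fun r _ => ?_
  rw [Polynomial.sub_comp, Polynomial.X_comp, Polynomial.C_comp]
  show Polynomial.X - Polynomial.C τ - Polynomial.C (u0 * e r) = Polynomial.X - Polynomial.C (u0 * (e r + τ / u0))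
  rw [mul_add, mul_div_cancel₀ _ u0_ne, map_add]
  ring

theorem Tr_U2 {m : ℕ} (τ : ℂ) {a : Fin (m + 2) → ℂ} (ha : a ∈ U2 m) :
    Tr τ a ∈ U2 m ∧ rt u0 (bq (Tr τ a)) = fun r => rt u0 (bq a) r + τ / u0 := by
  have h1 := va_surj ha
  have h2 : rt u0 (bq a) ∈ Ord m := rt_mem ha.2
  have h3 : (fun r => rt u0 (bq a) r + τ / u0) ∈ Ord m := by
    intro r s hrs
    have h4 := h2 r s hrs
    show (rt u0 (bq a) r + τ / u0).re < (rt u0 (bq a) s + τ / u0).re
    rw [Complex.add_re, Complex.add_re]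
    linarith
  have h4 : Tr τ a = va (a (Fin.last (m + 1))) fun r => rt u0 (bq a) r + τ / u0 := by
    rw [← Tr_va, h1]
  rw [h4]
  exact ⟨va_mem ha.1 h3, va_rt (lead_ne ha) h3⟩

variable {ι : Type} {n : ι → ℕ} [Fintype ι] [DecidableEq ι] {q : ℕ}

/-- translation of the roots of one of the polynomials -/
noncomputable def Fl (i : ι) (τ : ℝ) (y : XZ n q → ℝ) (p : XZ n q) : ℝ :=
  if p.1.1 = i then Tr τ (fun k => y (⟨p.1.1, k⟩, p.2)) p.1.2 else y p

theorem Fl_Fl (i : ι) (σ τ : ℝ) (y : XZ n q → ℝ) : Fl i σ (Fl i τ y) = Fl i (σ + τ) y := by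
  funext p
  unfold Fl
  by_cases h : p.1.1 = i
  · simp only [h, if_true]
    rw [← Tr_Tr]
  · simp only [h, if_false]

theorem Fl_zero (i : ι) (y : XZ n q → ℝ) : Fl i 0 y = y := by
  funext p
  unfold Fl
  split_ifs with h
  · rw [Tr_zero]
  · rfl

/-- the translation as a linear automorphism -/
noncomputable def FlE (i : ι) (τ : ℝ) : (XZ n q → ℝ) ≃ₗ[ℝ] (XZ n q → ℝ) where
  toFun := Fl i τ
  invFun := Fl i (-τ)
  left_inv := fun y => by
    rw [Fl_Fl, neg_add_cancel, Fl_zero]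
  right_inv := fun y => by
    rw [Fl_Fl, add_neg_cancel, Fl_zero]
  map_add' := fun y z => by
    funext p
    show Fl i τ (y + z) p = Fl i τ y p + Fl i τ z p
    unfold Fl
    split_ifs with h
    · exact congrFun (Tr_add τ (fun k => y (⟨p.1.1, k⟩, p.2)) (fun k => z (⟨p.1.1, k⟩, p.2))) p.1.2
    · rfl
  map_smul' := fun c y => by
    funext p
    show Fl i τ (c • y) p = c • Fl i τ y p
    unfold Fl
    split_ifs with h
    · exact congrFun (Tr_smul τ c (fun k => y (⟨p.1.1, k⟩, p.2))) p.1.2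
    · rfl

variable {w : Fin (q + 1) → ℂ}

theorem Lm_Tr (m : ℕ) (w : Fin (q + 1) → ℂ) (τ : ℂ) (y : Fin (m + 2) × Fin (q + 1) → ℂ) :
    Tr τ (Lm w y) = fun k => ∑ t, w t * Tr τ (fun k => y (k, t)) k := by
  have h1 : ∀ s : Finset (Fin (q + 1)), Tr τ (fun k => ∑ t ∈ s, w t * y (k, t)) =
      fun k => ∑ t ∈ s, w t * Tr τ (fun k => y (k, t)) k := by
    intro s
    induction s using Finset.induction_on with
    | empty =>
      funext k
      simp only [Finset.sum_empty]
      have h2 := congrFun (Tr_smul τ (0 : ℂ) (fun _ : Fin (m + 2) => (0 : ℂ))) k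
      simp only [zero_smul] at h2
      exact h2
    | insert t s ht ih =>
      have h2 : (fun k => ∑ t ∈ insert t s, w t * y (k, t)) = (w t • fun k => y (k, t)) +
          fun k => ∑ t ∈ s, w t * y (k, t) := by
        funext k
        rw [Finset.sum_insert ht]
        rfl
      rw [h2, Tr_add, Tr_smul, ih]
      funext k
      rw [Finset.sum_insert ht]
      rfl
  exact h1 Finset.univ

theorem pj_Fl_self (i : ι) (τ : ℝ) (y : XZ n q → ℝ) :
    pj (Lm w (cx (Fl i τ y))) i = Tr (τ : ℂ) (pj (Lm w (cx y)) i) := by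
  have h1 := Lm_Tr (n i) w (τ : ℂ) (fun p => (y (⟨i, p.1⟩, p.2) : ℂ))
  have h2 : pj (Lm w (cx y)) i = Lm w (fun p : Fin (n i + 2) × Fin (q + 1) => (y (⟨i, p.1⟩, p.2) : ℂ)) := rfl
  rw [h2, h1]
  funext k
  show ∑ t, w t * ((Fl i τ y (⟨i, k⟩, t) : ℝ) : ℂ) = _
  refine Finset.sum_congr rfl fun t _ => ?_
  congr 1
  unfold Fl
  rw [if_pos rfl]
  exact map_Tr Complex.ofRealHom τ (fun k => y (⟨i, k⟩, t)) k

theorem pj_Fl_ne {i j : ι} (h : j ≠ i) (τ : ℝ) (y : XZ n q → ℝ) :
    pj (Lm w (cx (Fl i τ y))) j = pj (Lm w (cx y)) j := by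
  funext k
  show ∑ t, w t * ((Fl i τ y (⟨j, k⟩, t) : ℝ) : ℂ) = ∑ t, w t * ((y (⟨j, k⟩, t) : ℝ) : ℂ)
  refine Finset.sum_congr rfl fun t _ => ?_
  unfold Fl
  rw [if_neg h]

/-- the real points for which every polynomial is in the domain -/
def Gd (n : ι → ℕ) (w : Fin (q + 1) → ℂ) : Set (XZ n q → ℝ) := {y | Lm w (cx y) ∈ UU n}

theorem Gd_open (w : Fin (q + 1) → ℂ) : IsOpen (Gd n w) :=
  (ahF n).isOpen.preimage ((Lm_cont w).comp cx_continuous)

theorem Fl_Gd (i : ι) (τ : ℝ) {y : XZ n q → ℝ} (hy : y ∈ Gd n w) : Fl i τ y ∈ Gd n w := by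
  intro j
  have hyj : pj (Lm w (cx y)) j ∈ U2 (n j) := hy j
  show pj (Lm w (cx (Fl i τ y))) j ∈ U2 (n j)
  by_cases h : j = i
  · subst h
    rw [pj_Fl_self]
    exact (Tr_U2 _ hyj).1
  · rw [pj_Fl_ne h]
    exact hyj

/-- the level of a root -/
noncomputable def lv (w : Fin (q + 1) → ℂ) (x : Σ j, Fin (n j + 1)) (y : XZ n q → ℝ) : ℝ :=
  (rt u0 (bq (pj (Lm w (cx y)) x.1)) x.2).re

theorem lv_self (x : Σ j, Fin (n j + 1)) (τ : ℝ) {y : XZ n q → ℝ} (hy : y ∈ Gd n w) :
    lv w x (Fl x.1 τ y) = lv w x y + τ / 2 := by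
  have hyj : pj (Lm w (cx y)) x.1 ∈ U2 (n x.1) := hy x.1
  unfold lv
  rw [pj_Fl_self, (Tr_U2 _ hyj).2]
  show (rt u0 (bq (pj (Lm w (cx y)) x.1)) x.2 + (τ : ℂ) / u0).re = _
  rw [Complex.add_re]
  congr 1
  unfold u0
  rw [Complex.div_re]
  simp [Complex.normSq_apply]
  ring

theorem lv_ne {x x' : Σ j, Fin (n j + 1)} (h : x'.1 ≠ x.1) (τ : ℝ) (y : XZ n q → ℝ) :
    lv w x' (Fl x.1 τ y) = lv w x' y := by
  unfold lv
  rw [pj_Fl_ne h]

theorem lv_cont (x : Σ j, Fin (n j + 1)) : ContinuousOn (lv (n := n) w x) (Gd n w) := by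
  intro y hy
  refine ContinuousAt.continuousWithinAt ?_
  have hyj : pj (Lm w (cx y)) x.1 ∈ U2 (n x.1) := hy x.1
  have h1 : DifferentiableAt ℂ (rt u0) (bq (pj (Lm w (cx y)) x.1)) :=
    (rt_diff u0_ne (n x.1)).differentiableAt ((Un_open u0_ne (n x.1)).mem_nhds hyj.2)
  have h2 : DifferentiableAt ℂ (fun b : Fin (n x.1 + 2) → ℂ => rt u0 (bq b)) (pj (Lm w (cx y)) x.1) :=
    DifferentiableAt.comp (pj (Lm w (cx y)) x.1) h1 (bq_diffAt (lead_ne hyj))
  have h3 : ContinuousAt (fun y : XZ n q → ℝ => pj (Lm w (cx y)) x.1) y := by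
    refine Continuous.continuousAt (continuous_pi fun r => ?_)
    exact (continuous_apply _).comp ((Lm_cont w).comp cx_continuous)
  have h4 : ContinuousAt (fun b : Fin (n x.1 + 2) → ℂ => (rt u0 (bq b) x.2).re) (pj (Lm w (cx y)) x.1) :=
    Complex.continuous_re.continuousAt.comp (differentiableAt_pi.1 h2 x.2).continuousAt
  exact ContinuousAt.comp (g := fun b : Fin (n x.1 + 2) → ℂ => (rt u0 (bq b) x.2).re)
    (f := fun y : XZ n q → ℝ => pj (Lm w (cx y)) x.1) h4 h3

/-- the level sets -/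
def Lv (w : Fin (q + 1) → ℂ) (x x' : Σ j, Fin (n j + 1)) (t : ℝ) : Set (XZ n q → ℝ) :=
  {y | y ∈ Gd n w ∧ lv w x y - lv w x' y = t}

theorem Lv_meas (w : Fin (q + 1) → ℂ) (x x' : Σ j, Fin (n j + 1)) (t : ℝ) : MeasurableSet (Lv w x x' t) := by
  have hc : ContinuousOn (fun y : XZ n q → ℝ => lv w x y - lv w x' y) (Gd n w) := (lv_cont x).sub (lv_cont x')
  have h1 : Lv w x x' t = Gd n w \ (Gd n w ∩ (fun y : XZ n q → ℝ => lv w x y - lv w x' y) ⁻¹' {t}ᶜ) := by
    ext y
    constructor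
    · rintro ⟨h1, h2⟩
      exact ⟨h1, fun h => h.2 h2⟩
    · rintro ⟨h1, h2⟩
      refine ⟨h1, ?_⟩
      by_contra h3
      exact h2 ⟨h1, h3⟩
  rw [h1]
  exact (Gd_open w).measurableSet.diff
    (hc.isOpen_inter_preimage (Gd_open w) isOpen_compl_singleton).measurableSet

/-- **the levels of the roots of different polynomials are different almost everywhere** -/
theorem Lv_null (w : Fin (q + 1) → ℂ) {x x' : Σ j, Fin (n j + 1)} (h : x'.1 ≠ x.1) : volume (Lv w x x' 0) = 0 := by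
  by_contra hne
  have hpre : ∀ t : ℝ, (FlE x.1 (2 * t)) ⁻¹' (Lv w x x' t) = Lv w x x' 0 := by
    intro t
    ext y
    show Fl x.1 (2 * t) y ∈ Lv w x x' t ↔ y ∈ Lv w x x' 0
    constructor
    · rintro ⟨h1, h2⟩
      have h3 : y ∈ Gd n w := by
        have h4 := Fl_Gd x.1 (-(2 * t)) h1
        rw [Fl_Fl, neg_add_cancel, Fl_zero] at h4
        exact h4
      refine ⟨h3, ?_⟩
      rw [lv_self x _ h3, lv_ne h] at h2
      linarith
    · rintro ⟨h1, h2⟩
      refine ⟨Fl_Gd _ _ h1, ?_⟩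
      rw [lv_self x _ h1, lv_ne h]
      linarith
  have hpos : ∀ t : ℝ, 0 < volume (Lv w x x' t) := by
    intro t
    rw [pos_iff_ne_zero]
    intro h0
    apply hne
    rw [← hpre t, Measure.addHaar_preimage_linearEquiv, h0, mul_zero]
  have hcount := Measure.countable_meas_pos_of_disjoint_iUnion (μ := (volume : Measure (XZ n q → ℝ)))
    (As := fun t : ℝ => Lv w x x' t) (fun t => Lv_meas w x x' t) (fun s t hst => by
      rw [Function.onFun, Set.disjoint_left]
      rintro y ⟨-, h1⟩ ⟨-, h2⟩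
      exact hst (h1.symm.trans h2))
  have h1 : {t : ℝ | 0 < volume (Lv w x x' t)} = Set.univ := Set.eq_univ_of_forall hpos
  rw [h1] at hcount
  exact Set.not_countable_univ hcount

/-- the order of the roots -/
theorem exists_Sh [Nonempty ι] {g : (Σ j, Fin (n j + 1)) → ℝ} (hg : Function.Injective g) :
    ∃ f : (Σ j, Fin (n j + 1)) ≃ Fin (NN n + 1), ∀ s t, s < t → g (f.symm s) < g (f.symm t) := by
  classical
  obtain ⟨j0⟩ := ‹Nonempty ι›
  have hcard : (Finset.univ.image g).card = NN n + 1 := by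
    rw [Finset.card_image_of_injective _ hg, Finset.card_univ, Fintype.card_sigma]
    simp only [Fintype.card_fin]
    have h1 : n j0 + 1 ≤ ∑ j, (n j + 1) :=
      Finset.single_le_sum (f := fun j => n j + 1) (fun _ _ => Nat.zero_le _) (Finset.mem_univ j0)
    unfold NN
    omega
  set o := (Finset.univ.image g).orderIsoOfFin hcard with ho
  set φ : (Σ j, Fin (n j + 1)) ≃ (Finset.univ.image g) := Equiv.ofBijective
    (fun x => ⟨g x, Finset.mem_image_of_mem g (Finset.mem_univ x)⟩) ⟨fun x y hxy => hg (congrArg Subtype.val hxy),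
      fun z => by
        obtain ⟨x, _, hx⟩ := Finset.mem_image.1 z.2
        exact ⟨x, Subtype.ext hx⟩⟩ with hφ
  refine ⟨φ.trans o.symm.toEquiv, fun s t hst => ?_⟩
  have h1 : ∀ s, g ((φ.trans o.symm.toEquiv).symm s) = (o s : ℝ) := by
    intro s
    have h2 : φ ((φ.trans o.symm.toEquiv).symm s) = o s := by
      show φ (φ.symm (o s)) = o s
      rw [Equiv.apply_symm_apply]
    exact congrArg Subtype.val h2
  rw [h1, h1]
  exact o.strictMono hst

/-- **the real points outside the domains** -/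
theorem null_Z [Nonempty ι] (hw : w 0 = 1) : volume {y : XZ n q → ℝ | cx y ∉ ⋃ f : Sh n, Lm w ⁻¹' DD f} = 0 := by
  classical
  have hsub : {y : XZ n q → ℝ | cx y ∉ ⋃ f : Sh n, Lm w ⁻¹' DD f} ⊆ {y | cx y ∉ Lm w ⁻¹' UU n} ∪
      ⋃ p : {p : (Σ j, Fin (n j + 1)) × (Σ j, Fin (n j + 1)) // p.2.1 ≠ p.1.1}, Lv w p.1.1 p.1.2 0 := by
    intro y hy
    by_contra hcon
    rw [Set.mem_union, not_or, Set.mem_iUnion, not_exists] at hcon
    obtain ⟨h1, h2⟩ := hcon
    have hyG : y ∈ Gd n w := by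
      by_contra h
      exact h1 h
    have hinj : Function.Injective fun x : Σ j, Fin (n j + 1) => lv w x y := by
      intro x x' hxx
      by_contra hne
      by_cases hj : x'.1 = x.1
      · obtain ⟨j, r⟩ := x
        obtain ⟨j', s⟩ := x'
        simp only at hj
        subst hj
        have hord : rt u0 (bq (pj (Lm w (cx y)) j')) ∈ Ord (n j') := rt_mem (hyG j').2
        have hrs : r ≠ s := fun h => hne (by rw [h])
        have hxx' : (rt u0 (bq (pj (Lm w (cx y)) j')) r).re = (rt u0 (bq (pj (Lm w (cx y)) j')) s).re := hxx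
        rcases lt_or_gt_of_ne hrs with h | h
        · have := hord r s h
          linarith
        · have := hord s r h
          linarith
      · have hxx' : lv w x y = lv w x' y := hxx
        exact h2 ⟨(x, x'), hj⟩ ⟨hyG, by rw [hxx', sub_self]⟩
    obtain ⟨f, hf⟩ := exists_Sh hinj
    have hmono : ∀ j (r s : Fin (n j + 1)), r < s → f ⟨j, r⟩ < f ⟨j, s⟩ := by
      intro j r s hrs
      by_contra hcon
      rw [not_lt] at hcon
      have hord : rt u0 (bq (pj (Lm w (cx y)) j)) ∈ Ord (n j) := rt_mem (hyG j).2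
      have h3 : lv w ⟨j, r⟩ y < lv w ⟨j, s⟩ y := hord r s hrs
      rcases eq_or_lt_of_le hcon with h | h
      · have h4 := f.injective h
        rw [h4] at h3
        exact lt_irrefl _ h3
      · have h4 := hf _ _ h
        simp only [Equiv.symm_apply_apply] at h4
        linarith
    refine hy (Set.mem_iUnion.2 ⟨⟨f, hmono⟩, hyG, fun s t hst => ?_⟩)
    exact hf s t hst
  refine measure_mono_null hsub ?_
  rw [measure_union_null_iff, measure_iUnion_null_iff]
  exact ⟨null_B n hw, fun p => Lv_null w p.2⟩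

end Pool.Agent.N121.ZK
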