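import Pool.Agent.N121.ZK.Arr
import Pool.Agent.N121.ZK.Null
import Pool.Agent.N121.BF.Fin

/-!
# Relations between the periods of all the curves `y² = ∏ F_j`, for almost all tuples of polynomials
-/

set_option autoImplicit false
set_option linter.unusedSectionVars false

open Complex Set Filter Topology NumberField Matrix MeasureTheory

namespace Pool.Agent.N121.ZK

open Pool.Agent.Y118.HP (jm jm_apply jm_det jm_transpose jm_diag jm_map qm bm bm_eq aeval_int_map)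
open Pool.Agent.Y890.MV
open Pool.Agent.Y890.SM
open Pool.Agent.Y124 (Cov)
open Pool.Agent.N121.OH (arv ptS TorS BX sc cx sd sd_pos sd_one sd2_one lt_sd' sd_le house_int mem_BX arv_rel arv_abs
  exists_M descent fsl osl few_cov few_near)
open Pool.Agent.N121.AH (mi mm mm_even UU U2 fp TorG scp q0 q0_map er ep torG_iff exists_X0 Tp sc_mem
  lead_ne growth exL u0)
open Pool.Agent.N121.BF (Lm Lm_smul wt wt_pos xq xq_cx xq_ht)

variable {ι : Type} {n : ι → ℕ} {q : ℕ} [Fintype ι] [DecidableEq ι]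

/-- the relations at a tuple of polynomials -/
def GoodZ (n : ι → ℕ) (k : ℕ) (H : ℝ) (ξ : Fin k → ℂ) (a : (Σ i, Fin (n i + 2)) → ℂ) : Prop :=
  ∃ e : ∀ S : Cu ι, Fin (nS n S + 1) → ℂ,
    (∀ S, (FS (pj a) S).coeff (nS n S + 1) ≠ 0 ∧
      FS (pj a) S = Polynomial.C ((FS (pj a) S).coeff (nS n S + 1)) * OH.rp (e S) ∧
      ∀ r s, r < s → (e S r).re + (e S r).im < (e S s).re + (e S s).im) ∧
    (PMZ n a e, tpi) ∈ TorG (nS n) ∧
    (∀ (K : Type) [Field K] [NumberField K] (φ : K →+* ℂ) (P : MvPolynomial (Option (Ix (mi (nS n)))) (𝓞 K)),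
      Module.finrank ℚ K ≤ k → P.totalDegree ≤ k →
      (∀ s (ψ : K →+* ℂ), ‖ψ (algebraMap (𝓞 K) K (P.coeff s))‖ ≤ H) →
      MvPolynomial.eval (ptS (PMZ n a e) tpi) (P.map (φ.comp (algebraMap (𝓞 K) K))) = 0 →
      ∀ x ∈ TorG (nS n), MvPolynomial.eval (ptS x.1 x.2) (P.map (φ.comp (algebraMap (𝓞 K) K))) = 0) ∧
    ∀ P : Fin k → MvPolynomial (Ix (mi (nS n))) ℤ, (∀ a, (P a).totalDegree ≤ k) →
      (∀ a s, |(((P a).coeff s : ℤ) : ℝ)| ≤ H) →
      ∑ b, ξ b * MvPolynomial.aeval (fun q : Ix (mi (nS n)) => PMZ n a e q.1 q.2.1 q.2.2) (P b) = 0 →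
      ∀ Y, (Y, tpi) ∈ TorG (nS n) →
        ∑ b, ξ b * MvPolynomial.aeval (fun q : Ix (mi (nS n)) => Y q.1 q.2.1 q.2.2) (P b) = 0

/-- different orders of the roots have disjoint domains -/
theorem DD_disj {f f' : Sh n} {a : (Σ i, Fin (n i + 2)) → ℂ} (h : a ∈ DD f) (h' : a ∈ DD f') : f = f' := by
  have key : ∀ s t, s < t → f'.1 (f.1.symm s) < f'.1 (f.1.symm t) := by
    intro s t hst
    have h1 : (EE f a s).re < (EE f a t).re := h.2 s t hst
    by_contra hcon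
    rw [not_lt] at hcon
    rcases eq_or_lt_of_le hcon with h2 | h2
    · have h3 := f.1.symm.injective (f'.1.injective h2)
      rw [h3] at hst
      exact lt_irrefl _ hst
    · have h3 : (EE f' a (f'.1 (f.1.symm t))).re < (EE f' a (f'.1 (f.1.symm s))).re := h'.2 _ _ h2
      have h4 : ∀ s, EE f' a (f'.1 (f.1.symm s)) = EE f a s := by
        intro s
        unfold EE
        rw [Equiv.symm_apply_apply]
      rw [h4, h4] at h3
      linarith
  have h1 : (fun s => f'.1 (f.1.symm s)) = id := by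
    refine (StrictMono.range_inj (fun s t hst => key s t hst) strictMono_id).1 ?_
    rw [Set.range_id]
    exact (f.1.symm.trans f'.1).surjective.range_eq
  refine Subtype.ext (Equiv.ext fun x => ?_)
  have h2 := congrFun h1 (f.1 x)
  simp only [Equiv.symm_apply_apply, id] at h2
  exact h2.symm

variable {w : Fin (q + 1) → ℂ} {hw : w 0 = 1}

/-- the roots are ordered -/
theorem eS_order {f : Sh n} {a : (Σ i, Fin (n i + 2)) → ℂ} (ha : a ∈ DD f) (S : Cu ι) (r t : Fin (nS n S + 1))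
    (hrt : r < t) : (eS f a S r).re + (eS f a S r).im < (eS f a S t).re + (eS f a S t).im := by
  have h1 := emS_ord f S ha.2 r t hrt
  have h2 : ∀ z : ℂ, (u0 * z).re + (u0 * z).im = 2 * z.re := by
    intro z
    unfold u0
    simp
    ring
  unfold eS
  rw [h2, h2]
  linarith

/-- outside the exceptional sets -/
theorem good_of [Nonempty ι] (k : ℕ) : ∃ C : ℕ, ∀ T : ℕ, C ≤ T → ∀ (f : Sh n) (ξ : Fin k → ℂ) (Lc : Set (XZ n q → ℂ)),
    Lc ⊆ (zkF f w hw).U → ∀ a ∈ BX (wt n q) T, cx (sc (wt n q) T a) ∈ Lc →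
    xq T a ∉ ExcT k (zkF f w hw).f (zkF f w hw).Tor Lc ℚ (algebraMap ℚ ℂ) ξ
      ((Fintype.card ι * exL (nS n) k + k : ℕ) : ℝ) (Tp T) →
    xq T a ∉ ExcT (k * k) (zkF f w hw).f (zkF f w hw).Tor Lc ℚ (algebraMap ℚ ℂ)
      (fun a : Fin (k * k + 1) => tpi ^ (a : ℕ))
      ((Fintype.card ι * exL (nS n) (k * k) + (k * k + 1) : ℕ) : ℝ) (Tp T) →
    GoodZ n k ((T : ℝ) ^ k) ξ (Lm w fun p => ((a p : ℤ) : ℂ)) := by
  classical
  obtain ⟨C, hC⟩ := exists_M (σ := Option (Ix (mi (nS n)))) k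
  refine ⟨max 1 ⌈C⌉₊, fun T hT f ξ Lc hL a ha haL hE1 hE2 => ?_⟩
  have hT1 : 1 ≤ T := (le_max_left _ _).trans hT
  have hTC : C ≤ T := (Nat.le_ceil C).trans (by exact_mod_cast (le_max_right _ _).trans hT)
  have hS : 0 < sd T := sd_pos T
  have hS0 : (0 : ℝ) < (sd T : ℝ) := by exact_mod_cast hS
  have hS1 : (1 : ℝ) ≤ (sd T : ℝ) := by exact_mod_cast hS
  set y : XZ n q → ℂ := fun p => (algebraMap ℚ ℂ) (xq T a p) with hy
  have hyL : y ∈ Lc := by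
    rw [hy, xq_cx]
    exact haL
  set x : (Σ i, Fin (n i + 2)) → ℂ := Lm w y with hx
  have hxU : x ∈ DD f := hL hyL
  have hsize : ∀ (L m : ℕ) (y : ℝ), 0 ≤ y → y ≤ (T : ℝ) ^ m →
      (sd T : ℝ) ^ (2 * L) * y ≤ Tp T ^ ((L + m : ℕ) : ℝ) := by
    intro L m y hy hym
    rw [Real.rpow_natCast, pow_add, pow_mul]
    have h2 : (T : ℝ) ^ m ≤ Tp T ^ m := pow_le_pow_left₀ (Nat.cast_nonneg _) (lt_sd' T).le _
    exact mul_le_mul le_rfl (hym.trans h2) hy (by unfold Tp; positivity)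
  have hscp : scp n (sd T) x = Lm w fun p => ((a p : ℤ) : ℂ) := by
    have h1 : ((sd T : ℕ) : ℂ) ≠ 0 := by exact_mod_cast hS.ne'
    have h2 : (fun p => ((((sd T : ℝ)) ^ 2 : ℝ) : ℂ) * y p) = fun p => ((a p : ℤ) : ℂ) := by
      funext p
      rw [hy]
      simp only [xq]
      rw [map_div₀, map_pow, map_natCast, eq_ratCast]
      push_cast
      field_simp
    rw [← h2, Lm_smul]
    rfl
  obtain ⟨t, ht0, htM, htE⟩ := PMZ_scale (f := f) hS hxU
  rw [hscp] at htE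
  set A : (Σ i, Fin (n i + 2)) → ℂ := Lm w fun p => ((a p : ℤ) : ℂ) with hA
  have hAD : A ∈ DD f := by
    rw [← hscp]
    exact (DD_scale hS0 hxU).1
  have hmem : (PMZ n A (eS f A), tpi) ∈ TorG (nS n) := by
    rw [htE, rsW_tor ht0]
    exact ⟨tpi_ne, fun S => PB_riemann hxU S⟩
  refine ⟨eS f A, fun S => ⟨?_, ?_, eS_order hAD S⟩, hmem, ?_, ?_⟩
  · rw [FS_lead hAD.1 f S]
    exact Finset.prod_ne_zero_iff.2 fun j _ => ld_ne hAD.1 j
  · rw [FS_lead hAD.1 f S]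
    exact FS_eq f hAD.1 S
  · intro K _ _ φ P hK hPd hPc hP0
    obtain ⟨M, hM, hMd, hMc⟩ := hC T hTC K hK P hPd hPc
    -- the norm vanishes at the period point
    have hM0 : MvPolynomial.aeval (ptS (PMZ n A (eS f A)) tpi) M = 0 := by
      rw [aeval_int_map, hM, map_prod]
      refine Finset.prod_eq_zero (Finset.mem_univ φ) ?_
      rw [MvPolynomial.aeval_eq_eval]
      exact hP0
    rw [arv_abs M hMd, htE] at hM0
    have hv := good_fullZ (w := w) (hw := hw) (f := f) hS1 ht0 htM (xq_ht ha) hyL hL hE2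
      (fun l (b : Fin (k * k + 1)) => M.coeff (osl l b)) (fun l b => hsize _ _ _ (abs_nonneg _) (hMc _)) hM0
    choose X0 hX0 using fun S => exists_X0 (nS n S)
    have hdes := descent (n := mi (nS n)) (fun S => mm_even (nS n S)) P φ hX0 (fun z hz => by
      rw [← hM, ← aeval_int_map, arv_abs M hMd]
      exact hv z (torG_iff.2 hz))
    intro z hz
    have h1 := hdes z (torG_iff.1 hz)
    rw [MvPolynomial.aeval_eq_eval] at h1
    exact h1
  · intro P hPd hPc hP0 Y hY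
    rw [arv_rel P hPd] at hP0 ⊢
    rw [htE] at hP0
    exact (good_arrZ (w := w) (hw := hw) (f := f) hS1 ht0 htM (xq_ht ha) hyL hE1 (fun l b => (P b).coeff (fsl l))
      (fun l b => hsize _ _ _ (abs_nonneg _) (hPc _ _)) hP0).1 Y hY

/-- the theorem for fixed parameters -/
theorem stepZ [Nonempty ι] {w : Fin (q + 1) → ℂ} (hw : w 0 = 1) (k : ℕ) {ε : ℝ} (hε : 0 < ε) : ∃ T₀ : ℕ, ∀ T : ℕ, T₀ ≤ T →
    ∀ ξ : Fin k → ℂ, ∃ E ⊆ BX (wt n q) T, (E.card : ℝ) ≤ ε * (BX (wt n q) T).card ∧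
      ∀ a ∈ BX (wt n q) T, a ∉ E → GoodZ n k ((T : ℝ) ^ k) ξ (Lm w fun p => ((a p : ℤ) : ℂ)) := by
  classical
  obtain ⟨i0⟩ := ‹Nonempty ι›
  have : Nonempty ι := ⟨i0⟩
  have : Nonempty (XZ n q) := ⟨(⟨i0, 0⟩, 0)⟩
  set V : Set (XZ n q → ℂ) := ⋃ f : Sh n, (zkF f w hw).U with hV
  have hVo : IsOpen V := isOpen_iUnion fun f => (zkF f w hw).isOpen
  -- points near the boundary
  obtain ⟨μ, hμ0, hμ⟩ := few_near (U := V) hVo (null_Z hw) (w := wt n q) wt_pos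
    (ε := ε / 3) (by positivity)
  set Lc : Sh n → Set (XZ n q → ℂ) := fun f => InnerM V μ ∩ (zkF f w hw).U with hLc
  have hLc2 : ∀ f, Lc f ⊆ (zkF f w hw).U := fun f => inter_subset_right
  have hLc1 : ∀ f, IsCompact (Lc f) := by
    intro f
    have h1 : Lc f = InnerM V μ ∩ (⋃ f' : {f' : Sh n // f' ≠ f}, (zkF f'.1 w hw).U)ᶜ := by
      ext x
      constructor
      · rintro ⟨hx1, hx2⟩
        refine ⟨hx1, fun h => ?_⟩
        obtain ⟨f', hf'⟩ := mem_iUnion.1 h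
        exact f'.2 (DD_disj hf' hx2)
      · rintro ⟨hx1, hx2⟩
        refine ⟨hx1, ?_⟩
        obtain ⟨f', hf'⟩ := mem_iUnion.1 (innerM_sub _ hμ0 hx1)
        by_cases h : f' = f
        · rw [← h]
          exact hf'
        · exact absurd (mem_iUnion.2 ⟨⟨f', h⟩, hf'⟩) hx2
    rw [h1]
    exact (innerM_compact _ _).inter_right
      (isOpen_iUnion fun f' : {f' : Sh n // f' ≠ f} => (zkF f'.1 w hw).isOpen).isClosed_compl
  have hf : ∀ (f : Sh n) q, AnalyticOnNhd ℂ ((zkF f w hw).f q) (zkF f w hw).U := fun f q => (zkF f w hw).an q.1 q.2.1 q.2.2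
  have hη : 0 < ((2 : ℝ)⁻¹) := by positivity
  choose D1 C1 T1 hC1 _ H1 using fun f : Sh n => excT_cov (zkF f w hw).conn (zkF f w hw).isOpen (zkF f w hw).nonempty
    (hf f) (zkF f w hw).tor (Lc f) (hLc1 f) (hLc2 f) k (Fin k) 1
    ((Fintype.card ι * exL (nS n) k + k : ℕ) : ℝ) _ hη
  choose D2 C2 T2 hC2 _ H2 using fun f : Sh n => excT_cov (zkF f w hw).conn (zkF f w hw).isOpen (zkF f w hw).nonempty
    (hf f) (zkF f w hw).tor (Lc f) (hLc1 f) (hLc2 f) (k * k) (Fin (k * k + 1)) 1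
    ((Fintype.card ι * exL (nS n) (k * k) + (k * k + 1) : ℕ) : ℝ) _ hη
  set Mc : ℝ := Fintype.card (Sh n) + 1 with hMc
  have hMc0 : 0 < Mc := by positivity
  choose T3 h3 using fun f : Sh n => growth (C1 f) (hC1 f) (D1 f) (ε := ε / (3 * Mc)) (by positivity)
  choose T4 h4 using fun f : Sh n => growth (C2 f) (hC2 f) (D2 f) (ε := ε / (3 * Mc)) (by positivity)
  obtain ⟨T5, h5⟩ := good_of (n := n) (w := w) (hw := hw) k
  set sup : (Sh n → ℕ) → ℕ := fun f => Finset.univ.sup f with hsup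
  have hle : ∀ (g : Sh n → ℕ) (f : Sh n), g f ≤ sup g := fun g f => Finset.le_sup (Finset.mem_univ f)
  refine ⟨max 1 (max μ (max (sup fun c => ⌈T1 c⌉₊) (max (sup fun c => ⌈T2 c⌉₊) (max (sup T3) (max (sup T4) T5))))),
    fun T hT ξ => ?_⟩
  simp only [max_le_iff] at hT
  obtain ⟨hT1, hTm, hT2, hT3, hT4, hT5, hT6⟩ := hT
  have hTT : (T : ℝ) ≤ Tp T := (lt_sd' T).le
  have hc1 := fun f => H1 f ℚ (by simp) (algebraMap ℚ ℂ) ξ (Tp T)
    (((Nat.le_ceil (T1 f)).trans (by exact_mod_cast (hle (fun c => ⌈T1 c⌉₊) f).trans hT2)).trans hTT)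
  have hc2 := fun f => H2 f ℚ (by simp) (algebraMap ℚ ℂ) (fun a : Fin (k * k + 1) => tpi ^ (a : ℕ)) (Tp T)
    (((Nat.le_ceil (T2 f)).trans (by exact_mod_cast (hle (fun c => ⌈T2 c⌉₊) f).trans hT3)).trans hTT)
  set E1 : Sh n → Finset (XZ n q → ℤ) := fun f => (BX (wt n q) T).filter fun a => cx (sc (wt n q) T a) ∈
    ((fun (s : XZ n q → ℚ) j => (algebraMap ℚ ℂ) (s j)) '' ExcT k (zkF f w hw).f (zkF f w hw).Tor (Lc f) ℚ
      (algebraMap ℚ ℂ) ξ ((Fintype.card ι * exL (nS n) k + k : ℕ) : ℝ) (Tp T)) with hE1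
  set E2 : Sh n → Finset (XZ n q → ℤ) := fun f => (BX (wt n q) T).filter fun a => cx (sc (wt n q) T a) ∈
    ((fun (s : XZ n q → ℚ) j => (algebraMap ℚ ℂ) (s j)) '' ExcT (k * k) (zkF f w hw).f (zkF f w hw).Tor (Lc f) ℚ
      (algebraMap ℚ ℂ) (fun a : Fin (k * k + 1) => tpi ^ (a : ℕ))
      ((Fintype.card ι * exL (nS n) (k * k) + (k * k + 1) : ℕ) : ℝ) (Tp T)) with hE2
  set E0 := (BX (wt n q) T).filter fun a => cx (sc (wt n q) T a) ∉ InnerM V μ with hE0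
  have hb0 : (E0.card : ℝ) ≤ ε / 3 * (BX (wt n q) T).card :=
    hμ T hTm E0 (Finset.filter_subset _ _) (fun a ha => (Finset.mem_filter.1 ha).2)
  have hb1 : ∀ f, ((E1 f).card : ℝ) ≤ ε / (3 * Mc) * (BX (wt n q) T).card := fun f =>
    (few_cov (wt n q) wt_pos (hc1 f) hT1).trans
      (mul_le_mul_of_nonneg_right (h3 f T ((hle T3 f).trans hT4)) (Nat.cast_nonneg _))
  have hb2 : ∀ f, ((E2 f).card : ℝ) ≤ ε / (3 * Mc) * (BX (wt n q) T).card := fun f =>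
    (few_cov (wt n q) wt_pos (hc2 f) hT1).trans
      (mul_le_mul_of_nonneg_right (h4 f T ((hle T4 f).trans hT5)) (Nat.cast_nonneg _))
  have hsum : ∀ E : Sh n → Finset (XZ n q → ℤ), (∀ f, ((E f).card : ℝ) ≤ ε / (3 * Mc) * (BX (wt n q) T).card) →
      (((Finset.univ.biUnion E).card : ℕ) : ℝ) ≤ ε / 3 * (BX (wt n q) T).card := by
    intro E hE
    have h6 : (((Finset.univ.biUnion E).card : ℕ) : ℝ) ≤ ∑ f, ((E f).card : ℝ) := by
      exact_mod_cast Finset.card_biUnion_le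
    refine h6.trans ((Finset.sum_le_sum fun f _ => hE f).trans ?_)
    rw [Finset.sum_const, Finset.card_univ, nsmul_eq_mul]
    have h7 : (Fintype.card (Sh n) : ℝ) ≤ Mc := by
      rw [hMc]
      linarith
    have h8 : (0 : ℝ) ≤ (BX (wt n q) T).card := Nat.cast_nonneg _
    have h9 : ε / (3 * Mc) * (BX (wt n q) T).card = (ε / 3 * (BX (wt n q) T).card) / Mc := by
      field_simp
    rw [h9, ← mul_div_assoc, div_le_iff₀ hMc0, mul_comm]
    exact mul_le_mul_of_nonneg_left h7 (by positivity)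
  refine ⟨E0 ∪ (Finset.univ.biUnion E1 ∪ Finset.univ.biUnion E2), ?_, ?_, ?_⟩
  · refine Finset.union_subset (Finset.filter_subset _ _) (Finset.union_subset ?_ ?_)
    · exact Finset.biUnion_subset.2 fun c _ => Finset.filter_subset _ _
    · exact Finset.biUnion_subset.2 fun c _ => Finset.filter_subset _ _
  · have h6 : ((E0 ∪ (Finset.univ.biUnion E1 ∪ Finset.univ.biUnion E2)).card : ℝ) ≤
        E0.card + ((Finset.univ.biUnion E1).card + (Finset.univ.biUnion E2).card) := by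
      exact_mod_cast (Finset.card_union_le _ _).trans (Nat.add_le_add_left (Finset.card_union_le _ _) _)
    have h7 := hsum E1 hb1
    have h8 := hsum E2 hb2
    calc ((E0 ∪ (Finset.univ.biUnion E1 ∪ Finset.univ.biUnion E2)).card : ℝ) ≤
          E0.card + ((Finset.univ.biUnion E1).card + (Finset.univ.biUnion E2).card) := h6
      _ ≤ ε / 3 * (BX (wt n q) T).card + (ε / 3 * (BX (wt n q) T).card + ε / 3 * (BX (wt n q) T).card) := by
          gcongr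
      _ = ε * (BX (wt n q) T).card := by ring
  · intro a ha hnot
    rw [Finset.mem_union, Finset.mem_union, not_or, not_or] at hnot
    obtain ⟨hn0, hn1, hn2⟩ := hnot
    have haI : cx (sc (wt n q) T a) ∈ InnerM V μ := by
      by_contra hcon
      exact hn0 (Finset.mem_filter.2 ⟨ha, hcon⟩)
    obtain ⟨f, hf⟩ := mem_iUnion.1 (innerM_sub _ hμ0 haI)
    have haL : cx (sc (wt n q) T a) ∈ Lc f := ⟨haI, hf⟩
    refine h5 T hT6 f ξ (Lc f) (hLc2 f) a ha haL ?_ ?_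
    · intro hcon
      exact hn1 (Finset.mem_biUnion.2 ⟨f, Finset.mem_univ f, Finset.mem_filter.2 ⟨ha, ⟨_, hcon, xq_cx T a⟩⟩⟩)
    · intro hcon
      exact hn2 (Finset.mem_biUnion.2 ⟨f, Finset.mem_univ f, Finset.mem_filter.2 ⟨ha, ⟨_, hcon, xq_cx T a⟩⟩⟩)

/-- **Main theorem.** -/
theorem main [Nonempty ι] (n : ι → ℕ) {w : Fin (q + 1) → ℂ} (hw : w 0 = 1) : ∃ ω : ℕ → ℕ, Tendsto ω atTop atTop ∧
    ∀ ε : ℝ, 0 < ε → ∃ T₀ : ℕ, ∀ T : ℕ, T₀ ≤ T → ∀ ξ : Fin (ω T) → ℂ, ∃ E ⊆ BX (wt n q) T,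
      (E.card : ℝ) ≤ ε * (BX (wt n q) T).card ∧
      ∀ a ∈ BX (wt n q) T, a ∉ E → GoodZ n (ω T) ((T : ℝ) ^ ω T) ξ (Lm w fun p => ((a p : ℤ) : ℂ)) := by
  classical
  obtain ⟨ω, T₀, hω, -, H⟩ := Pool.Agent.Y890.SP.exists_omega
    (fun k (T : ℝ) => ∀ ξ : Fin k → ℂ, ∃ E ⊆ BX (wt n q) ⌊T⌋₊,
      (E.card : ℝ) ≤ ((k : ℝ) + 1)⁻¹ * (BX (wt n q) ⌊T⌋₊).card ∧
      ∀ a ∈ BX (wt n q) ⌊T⌋₊, a ∉ E → GoodZ n k ((⌊T⌋₊ : ℝ) ^ k) ξ (Lm w fun p => ((a p : ℤ) : ℂ))) (fun k => by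
    obtain ⟨T₀, hT₀⟩ := stepZ (n := n) hw (k + 1) (ε := (((k + 1 : ℕ) : ℝ) + 1)⁻¹) (by positivity)
    refine ⟨T₀, fun T hT => ?_⟩
    exact hT₀ ⌊T⌋₊ (Nat.le_floor hT))
  refine ⟨fun T => ω (T : ℝ), hω.comp tendsto_natCast_atTop_atTop, fun ε hε => ?_⟩
  obtain ⟨k, hk⟩ := exists_nat_gt ε⁻¹
  have h1 : ∀ᶠ T : ℕ in atTop, k ≤ ω (T : ℝ) := (hω.comp tendsto_natCast_atTop_atTop).eventually_ge_atTop k
  obtain ⟨T₁, hT₁⟩ := eventually_atTop.1 h1
  refine ⟨max T₁ ⌈T₀⌉₊, fun T hT ξ => ?_⟩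
  have hT1 : T₁ ≤ T := (le_max_left _ _).trans hT
  have hT0 : T₀ ≤ (T : ℝ) := (Nat.le_ceil T₀).trans (by exact_mod_cast (le_max_right _ _).trans hT)
  obtain ⟨-, h2⟩ := H (T : ℝ) hT0
  obtain ⟨E, hE1, hE2, hE3⟩ := h2 ξ
  rw [Nat.floor_natCast] at hE1 hE2 hE3
  refine ⟨E, hE1, hE2.trans (mul_le_mul_of_nonneg_right ?_ (Nat.cast_nonneg _)), hE3⟩
  have h3 : (k : ℝ) ≤ ω (T : ℝ) := by exact_mod_cast hT₁ T hT1
  rw [inv_le_comm₀ (by positivity) hε]
  linarith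

end Pool.Agent.N121.ZK
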