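import Pool.Agent.N121.ZK.Cur

/-!
# The relations between the periods of all the curves are invariant under the symplectic groups
-/

set_option autoImplicit false
set_option linter.unusedSectionVars false

open Filter Matrix Topology

namespace Pool.Agent.N121.ZK

open Pool.Agent.Y118.HP (jm jm_apply SpS jm_det jm_transpose jm_map SpS_map qm dl dl_ne dl_mul bm bm_eq perC TV sp_gen)
open Pool.Agent.Y890.MV
open Pool.Agent.Y890.HE
open Pool.Agent.Y890.SM
open Pool.Agent.N121.OH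
open Pool.Agent.N121.AH
open Pool.Agent.N156.HC (MJ PF)

variable {ι : Type} {n : ι → ℕ} [Fintype ι]

/-- the coefficients as polynomials in the roots -/
noncomputable def vaS (f : Sh n) (c : ι → ℂ) (s : Σ i, Fin (n i + 2)) : MvPolynomial (Fin (NN n + 1)) ℂ :=
  MvPolynomial.C (c s.1) * (rp fun r : Fin (n s.1 + 1) =>
    MvPolynomial.C u0 * MvPolynomial.X (R := ℂ) (f.1 ⟨s.1, r⟩)).coeff (s.2 : ℕ)

theorem vaS_eval (f : Sh n) (c : ι → ℂ) (s : Σ i, Fin (n i + 2)) (e : Fin (NN n + 1) → ℂ) :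
    MvPolynomial.eval e (vaS f c s) = PhS f c e s := by
  unfold vaS
  rw [map_mul, MvPolynomial.eval_C, ← Polynomial.coeff_map, map_rp]
  simp only [map_mul, MvPolynomial.eval_C, MvPolynomial.eval_X]
  rfl

/-- the coefficients of the forms as polynomials in the roots -/
noncomputable def cfS (f : Sh n) (c : ι → ℂ) (S : Cu ι) (k : Fin (nS n S)) (i : Fin (mS n S)) :
    MvPolynomial (Fin (NN n + 1)) ℂ :=
  if (i : ℕ) < nS n S / 2 then (if (k : ℕ) = i then 1 else 0) else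
    (if (i : ℕ) - nS n S / 2 < k then MvPolynomial.C (((((i : ℕ) - nS n S / 2 : ℕ) : ℂ) - ((k : ℕ) : ℂ)) / 2) *
      (FS (fun j k => vaS f c ⟨j, k⟩) S).coeff ((i : ℕ) - nS n S / 2 + k + 2) else 0)

theorem cfS_eval (f : Sh n) (c : ι → ℂ) (S : Cu ι) (k : Fin (nS n S)) (i : Fin (mS n S)) (e : Fin (NN n + 1) → ℂ) :
    MvPolynomial.eval e (cfS f c S k i) = cf (nS n S) (FS (pj (PhS f c e)) S) k i := by
  have h1 : ∀ m, MvPolynomial.eval e ((FS (fun j k => vaS f c ⟨j, k⟩) S).coeff m) = (FS (pj (PhS f c e)) S).coeff m := by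
    intro m
    rw [← Polynomial.coeff_map, map_FS]
    congr 2
    funext j k
    exact vaS_eval f c ⟨j, k⟩ e
  unfold cfS cf
  rw [Matrix.of_apply]
  split_ifs with h2 h3 h4
  · rw [map_one]
  · rw [map_zero]
  · rw [map_mul, MvPolynomial.eval_C, h1]
  · rw [map_zero]

/-- the transfer of relations to the roots -/
noncomputable def trJ (f : Sh n) (c : ι → ℂ) (σ : Cu ι → ℂ) :
    MvPolynomial (Ix (mS n)) (MvPolynomial (Σ i, Fin (n i + 2)) ℂ) →+*
    MvPolynomial (Ix (nS n)) (MvPolynomial (Fin (NN n + 1)) ℂ) :=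
  MvPolynomial.eval₂Hom (MvPolynomial.C.comp (MvPolynomial.eval₂Hom MvPolynomial.C fun s => vaS f c s))
    (fun q => ∑ k : Fin (nS n q.1), MvPolynomial.C (MvPolynomial.C ((σ q.1)⁻¹ *
      (dl (cst q.2.1 : Fin (nS n q.1)) * w0 ^ (2 * (k : ℤ) + 1 - nS n q.1))) *
      cfS f c q.1 k q.2.2) * MvPolynomial.X (⟨q.1, (cst q.2.1, k)⟩ : Ix (nS n)))

/-- the matrices obtained from the values of the periods -/
noncomputable def MAJ (f : Sh n) (c : ι → ℂ) (σ : Cu ι → ℂ) (e : Fin (NN n + 1) → ℂ) (Z : MJ (nS n)) (S : Cu ι) :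
    Matrix (Fin (mS n S)) (Fin (mS n S)) ℂ :=
  Matrix.of fun l i => ∑ k : Fin (nS n S), (σ S)⁻¹ * (dl (cst l : Fin (nS n S)) * w0 ^ (2 * (k : ℤ) + 1 - nS n S)) *
    cf (nS n S) (FS (pj (PhS f c e)) S) k i * Z S (cst l) k

theorem trJ_ev (f : Sh n) (c : ι → ℂ) (σ : Cu ι → ℂ) (e : Fin (NN n + 1) → ℂ) (Z : MJ (nS n))
    (p : MvPolynomial (Ix (mS n)) (MvPolynomial (Σ i, Fin (n i + 2)) ℂ)) :
    evX e (fun q => Z q.1 q.2.1 q.2.2) (trJ f c σ p) =
      evX (PhS f c e) (fun q => MAJ f c σ e Z q.1 q.2.1 q.2.2) p := by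
  have h1 : (MvPolynomial.eval₂Hom (MvPolynomial.eval e) (fun q : Ix (nS n) => Z q.1 q.2.1 q.2.2)).comp (trJ f c σ) =
      MvPolynomial.eval₂Hom (MvPolynomial.eval (PhS f c e)) (fun q => MAJ f c σ e Z q.1 q.2.1 q.2.2) := by
    refine MvPolynomial.ringHom_ext (fun b => ?_) (fun q => ?_)
    · have h2 : ((MvPolynomial.eval₂Hom (MvPolynomial.eval e) (fun q : Ix (nS n) => Z q.1 q.2.1 q.2.2)).comp
          (trJ f c σ)).comp MvPolynomial.C = MvPolynomial.eval (PhS f c e) := by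
        refine MvPolynomial.ringHom_ext (fun d => ?_) (fun k => ?_)
        · simp [trJ]
        · simp only [RingHom.comp_apply, trJ, MvPolynomial.eval₂Hom_C, MvPolynomial.eval₂Hom_X', MvPolynomial.eval_X,
            vaS_eval]
      have h3 := congrArg (fun g => g b) h2
      simp only [RingHom.comp_apply] at h3
      rw [RingHom.comp_apply, h3]
      exact (MvPolynomial.eval₂Hom_C _ _ _).symm
    · simp only [RingHom.comp_apply, trJ, MvPolynomial.eval₂Hom_X', map_sum, map_mul, MvPolynomial.eval₂Hom_C,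
        MvPolynomial.eval_C, cfS_eval]
      unfold MAJ
      rw [Matrix.of_apply]
  exact congrArg (fun g => g p) h1

/-- the period matrices in terms of the roots -/
theorem MAJ_PF (f : Sh n) {c : ι → ℂ} (hc : ∀ i, c i / u0 ∈ Complex.slitPlane) {e : Fin (NN n + 1) → ℂ}
    (he : e ∈ Ord (NN n)) : MAJ f c (sgS n c) e (PF (emS f) e) = PB f (PhS f c e) := by
  funext S
  ext l i
  unfold MAJ PB PW
  rw [Matrix.of_apply, Matrix.mul_apply, ld_PhS, EE_PhS f hc he]
  refine Finset.sum_congr rfl fun k _ => ?_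
  rw [Matrix.submatrix_apply, Matrix.smul_apply, smul_eq_mul]
  unfold PE
  rw [Matrix.of_apply]
  show _ * perC (fun r => e (emS f S r)) (cst l) k = (sgS n c S)⁻¹ * (dl (cst l : Fin (nS n S)) *
    (w0 ^ (2 * (k : ℤ) + 1 - nS n S) * perC (fun r => e (emS f S r)) (cst l) k)) * _
  ring

section tv

variable [DecidableEq ι]

/-- the action of a transvection on the rows -/
theorem MAJ_TV (f : Sh n) (c : ι → ℂ) (σ : Cu ι → ℂ) (e : Fin (NN n + 1) → ℂ) (S : Cu ι) (v : Fin (mS n S) → ℂ) (t : ℂ)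
    (Z : MJ (nS n)) :
    MAJ f c σ e ((Pi.mulSingle S (TV (ez v) t) : MJ (nS n)) * Z) =
      (Pi.mulSingle S (cj (TV v t)) : ∀ S, Matrix (Fin (mS n S)) (Fin (mS n S)) ℂ) * MAJ f c σ e Z := by
  funext S'
  by_cases hS : S' = S
  · subst hS
    rw [Pi.mul_apply, Pi.mulSingle_eq_same]
    ext l i
    rw [Matrix.mul_apply]
    unfold MAJ
    simp only [Matrix.of_apply, Pi.mul_apply, Pi.mulSingle_eq_same]
    simp only [TV_ez]
    simp only [Matrix.mul_apply, Matrix.submatrix_apply, Finset.mul_sum]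
    rw [Finset.sum_comm]
    refine Finset.sum_congr rfl fun r _ => Finset.sum_congr rfl fun k _ => ?_
    have h1 : dl (cst l : Fin (nS n S')) = dl l := rfl
    have h2 : dl (cst r : Fin (nS n S')) = dl r := rfl
    have h4 : cj (TV v t) l r = dl l * TV v t l r * (dl r)⁻¹ := rfl
    rw [h1, h2, h4, id]
    have h3 := dl_ne r
    field_simp
  · rw [Pi.mul_apply, Pi.mulSingle_eq_of_ne hS, one_mul]
    unfold MAJ
    simp only [Pi.mul_apply, Pi.mulSingle_eq_of_ne hS, one_mul]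

/-- relations are preserved: transvections -/
theorem inv_oneS (f : Sh n) (p : MvPolynomial (Ix (mS n)) (MvPolynomial (Σ i, Fin (n i + 2)) ℂ))
    (hp : ∀ a ∈ DD f, evX a (fun q => PB f a q.1 q.2.1 q.2.2) p = 0) (S : Cu ι) (v : Fin (mS n S) → ℂ) (t : ℂ) :
    ∀ a ∈ DD f, evX a (fun q => ((Pi.mulSingle S (cj (TV v t)) :
      ∀ S, Matrix (Fin (mS n S)) (Fin (mS n S)) ℂ) * PB f a) q.1 q.2.1 q.2.2) p = 0 := by
  intro a ha
  have hc : ∀ i, ld a i / u0 ∈ Complex.slitPlane := fun i => (ha.1 i).1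
  have he0U : EE f a ∈ Ord (NN n) := ha.2
  have hva : PhS f (ld a) (EE f a) = a := PhS_surj ha.1
  generalize ld a = c at hc hva
  generalize EE f a = e0 at he0U hva
  have h1 : ∀ e ∈ Ord (NN n), evX e (fun q => PF (emS f) e q.1 q.2.1 q.2.2) (trJ f c (sgS n c) p) = 0 := by
    intro e he
    rw [trJ_ev, MAJ_PF f hc he]
    exact hp _ (PhS_DD f hc he)
  have h2 := inv_TV1 (emS_inj f) _ h1 S (ez v) t e0 he0U
  rw [trJ_ev, MAJ_TV, MAJ_PF f hc he0U, hva] at h2
  exact h2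

/-- substitution `X ↦ g X` -/
noncomputable def sbS (g : ∀ S, Matrix (Fin (mS n S)) (Fin (mS n S)) ℂ) :
    MvPolynomial (Ix (mS n)) (MvPolynomial (Σ i, Fin (n i + 2)) ℂ) →+*
    MvPolynomial (Ix (mS n)) (MvPolynomial (Σ i, Fin (n i + 2)) ℂ) :=
  MvPolynomial.eval₂Hom MvPolynomial.C (fun q => ∑ k, MvPolynomial.C (MvPolynomial.C (g q.1 q.2.1 k)) *
    MvPolynomial.X (⟨q.1, (k, q.2.2)⟩ : Ix (mS n)))

theorem sbS_ev (g : ∀ S, Matrix (Fin (mS n S)) (Fin (mS n S)) ℂ) (a : (Σ i, Fin (n i + 2)) → ℂ)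
    (Z : ∀ S, Matrix (Fin (mS n S)) (Fin (mS n S)) ℂ)
    (p : MvPolynomial (Ix (mS n)) (MvPolynomial (Σ i, Fin (n i + 2)) ℂ)) :
    evX a (fun q => Z q.1 q.2.1 q.2.2) (sbS g p) = evX a (fun q => (g * Z) q.1 q.2.1 q.2.2) p := by
  have h1 : (MvPolynomial.eval₂Hom (MvPolynomial.eval a) (fun q : Ix (mS n) => Z q.1 q.2.1 q.2.2)).comp (sbS g) =
      MvPolynomial.eval₂Hom (MvPolynomial.eval a) (fun q => (g * Z) q.1 q.2.1 q.2.2) := by
    refine MvPolynomial.ringHom_ext (fun b => ?_) (fun q => ?_)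
    · simp [sbS]
    · simp [sbS, Matrix.mul_apply]
  exact congrArg (fun g => g p) h1

/-- the tuples which preserve the relations -/
def MonS (f : Sh n) : Submonoid (∀ S, Matrix (Fin (mS n S)) (Fin (mS n S)) ℂ) where
  carrier := {g | ∀ p : MvPolynomial (Ix (mS n)) (MvPolynomial (Σ i, Fin (n i + 2)) ℂ),
    (∀ a ∈ DD f, evX a (fun q => PB f a q.1 q.2.1 q.2.2) p = 0) →
      ∀ a ∈ DD f, evX a (fun q => (g * PB f a) q.1 q.2.1 q.2.2) p = 0}
  one_mem' := by
    intro p hp a ha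
    rw [one_mul]
    exact hp a ha
  mul_mem' := by
    intro g h hg hh p hp a ha
    have h1 : ∀ a ∈ DD f, evX a (fun q => PB f a q.1 q.2.1 q.2.2) (sbS g p) = 0 := by
      intro a ha
      rw [sbS_ev]
      exact hg p hp a ha
    have h2 := hh _ h1 a ha
    rw [sbS_ev] at h2
    rw [mul_assoc]
    exact h2

/-- one curve -/
theorem single_SpS (f : Sh n) (S : Cu ι) {g : Matrix (Fin (mS n S)) (Fin (mS n S)) ℂ} (hg : g ∈ SpS ℂ (mS n S)) :
    (Pi.mulSingle S g : ∀ S, Matrix (Fin (mS n S)) (Fin (mS n S)) ℂ) ∈ MonS f := by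
  set M1 : Submonoid (Matrix (Fin (mS n S)) (Fin (mS n S)) ℂ) :=
    (MonS f).comap (MonoidHom.mulSingle (fun S => Matrix (Fin (mS n S)) (Fin (mS n S)) ℂ) S) with hM1
  set M2 : Submonoid (Matrix (Fin (mS n S)) (Fin (mS n S)) ℂ) :=
    { carrier := {g | cj g ∈ M1}
      one_mem' := by
        show cj 1 ∈ M1
        rw [cj_one]
        exact one_mem _
      mul_mem' := by
        intro g h hg hh
        show cj (g * h) ∈ M1
        rw [cj_mul]
        exact mul_mem hg hh } with hM2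
  have h1 := conj_dl hg
  have h2 := sp_gen (mm_even (nS n S)) M2 (fun v t => by
    show cj (TV v t) ∈ M1
    intro p hp a ha
    exact inv_oneS f p hp S v t a ha) _ h1
  have h3 : cj (Matrix.of fun l k => (dl l)⁻¹ * g l k * dl k) = g := by
    ext l k
    unfold cj
    rw [Matrix.of_apply, Matrix.of_apply]
    have h4 := dl_ne l
    have h5 := dl_ne k
    field_simp
  have h6 : cj (Matrix.of fun l k => (dl l)⁻¹ * g l k * dl k) ∈ M1 := h2
  rw [h3] at h6
  exact h6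

/-- **relations are invariant under the product of the symplectic groups** -/
theorem zk_mon (f : Sh n) {g : ∀ S, Matrix (Fin (mS n S)) (Fin (mS n S)) ℂ} (hg : ∀ S, g S ∈ SpS ℂ (mS n S)) :
    g ∈ MonS f := Pool.Agent.N156.HC.tuple_mem (MonS f) g fun S => single_SpS f S (hg S)

end tv

end Pool.Agent.N121.ZK
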