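import Pool.Agent.N156.HC.Pure

/-!
# The simultaneous transvections, for any numbers of branch points of the curves
-/

set_option autoImplicit false
set_option linter.unusedSectionVars false

open Complex Set Filter Topology Matrix

namespace Pool.Agent.N121.ZK

open Pool.Agent.Y118.HP
open Pool.Agent.N156.HC

/-- the monoid generated by the transvections -/
def CT (n : ℕ) : Submonoid (Matrix (Fin n) (Fin n) ℂ) :=
  Submonoid.closure (Set.range fun q : (Fin n → ℂ) × ℂ => TV q.1 q.2)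

theorem TV_CT {n : ℕ} (v : Fin n → ℂ) (s : ℂ) : TV v s ∈ CT n := Submonoid.subset_closure ⟨(v, s), rfl⟩

theorem CT_le {n : ℕ} {M : Submonoid (Matrix (Fin n) (Fin n) ℂ)} (h : ∀ v s, TV v s ∈ M) : CT n ≤ M := by
  unfold CT
  rw [Submonoid.closure_le]
  rintro _ ⟨⟨v, s⟩, rfl⟩
  exact h v s

variable {N : ℕ} {ι : Type} {n : ι → ℕ} {φ : ∀ j, Fin (n j) ↪o Fin N}

theorem TJ_CT (k : Fin N) (s : ℂ) (j : ι) : TJ φ k s j ∈ CT (n j) := by
  by_cases h : ∃ k', φ j k' = k
  · obtain ⟨k', h⟩ := h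
    rw [TJ_of h]
    have h1 := TV_CT (Pi.single k' 1 : Fin (n j) → ℂ) ((-1) ^ (k' : ℕ) * s)
    rw [TV_single, ← mul_assoc, ← mul_pow] at h1
    simpa using h1
  · rw [TJ_not h]
    exact one_mem _

theorem GJ_CT {u : (MJ n)ˣ} (hu : u ∈ GJ φ) (j : ι) :
    (u : MJ n) j ∈ CT (n j) ∧ ((u⁻¹ : (MJ n)ˣ) : MJ n) j ∈ CT (n j) := by
  unfold GJ at hu
  induction hu using Subgroup.closure_induction with
  | mem x h =>
    obtain ⟨⟨k, s⟩, rfl⟩ := h
    exact ⟨TJ_CT k s j, TJ_CT k (-s) j⟩
  | one =>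
    rw [inv_one]
    exact ⟨one_mem _, one_mem _⟩
  | mul x y _ _ hx hy =>
    rw [_root_.mul_inv_rev]
    exact ⟨mul_mem hx.1 hy.1, mul_mem hy.2 hx.2⟩
  | inv x _ hx =>
    rw [inv_inv]
    exact ⟨hx.2, hx.1⟩

theorem om_zero_one {m : ℕ} (h0 : 0 < m) (h1 : 1 < m) (v : Fin m → ℂ) :
    om (Pi.single (⟨0, h0⟩ : Fin m) 1) v = 0 ↔ v ⟨1, h1⟩ = 0 := by
  rw [om_single, jm_mulVec]
  have h2 : ext0 v (0 + 1) = v ⟨1, h1⟩ := by
    rw [ext0, dif_pos h1]
  simp only [if_true, pow_zero]
  rw [h2]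
  simp

/-- transvections in one factor, and in the factors of larger sets of points -/
theorem chain' (j : ι) (r : ℕ) : ∀ hr : r < n j, ∃ v : Fin (n j) → ℂ, (∀ i : Fin (n j), r < (i : ℕ) → v i = 0) ∧
    v ⟨r, hr⟩ ≠ 0 ∧ (∀ h1 : 1 ≤ r, v ⟨1, h1.trans_lt hr⟩ ≠ 0) ∧ v ∈ V0 φ j ∧
    ∀ s, ∃ u ∈ GJ φ, (u : MJ n) j = TV v s ∧
      ∀ j', (∃ i : Fin (n j), (i : ℕ) ≤ r ∧ ¬ ∃ k', φ j' k' = φ j i) → (u : MJ n) j' = 1 := by
  induction r with
  | zero =>
    intro hr
    refine ⟨Pi.single ⟨0, hr⟩ 1, fun i hi => ?_, by simp, fun h => absurd h (by omega), single_mem0 j _, fun s => ?_⟩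
    · rw [Pi.single_eq_of_ne]
      intro h
      rw [h] at hi
      exact absurd hi (lt_irrefl _)
    · refine ⟨TU φ (φ j ⟨0, hr⟩) ((-1) ^ ((⟨0, hr⟩ : Fin (n j)) : ℕ) * s), TU_mem _ _, ?_, ?_⟩
      · rw [TV_single]
        exact TJ_of rfl _
      · rintro j' ⟨i, hi, hi'⟩
        have h1 : i = ⟨0, hr⟩ := Fin.ext (by simp only; omega)
        rw [h1] at hi'
        exact TJ_not hi' _
  | succ r ih =>
    intro hr
    obtain ⟨v, hv1, hv2, hv5, hv3, hv4⟩ := ih (by omega)
    set e : Fin (n j) → ℂ := Pi.single ⟨r + 1, hr⟩ 1 with he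
    have hc : om e v ≠ 0 := om_e hr hv1 hv2
    have heV : e ∈ V0 φ j := single_mem0 j _
    have hw : v - e ∈ V0 φ j := by
      have h1 := add_mem0 heV hv3 hc (-1)
      rwa [neg_one_smul, ← sub_eq_add_neg] at h1
    obtain ⟨x, hx, hx1, hx2⟩ := hv4 (3 / (2 * om e v))
    set y : (MJ n)ˣ := TU φ (φ j ⟨r + 1, hr⟩) ((-1) ^ ((⟨r + 1, hr⟩ : Fin (n j)) : ℕ) * (1 / om e v)) with hy
    have hyG : y ∈ GJ φ := TU_mem _ _
    have hy1 : (y : MJ n) j = TV e (1 / om e v) := by
      rw [he, TV_single]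
      exact TJ_of rfl _
    have hx' : ((x⁻¹ : (MJ n)ˣ) : MJ n) j = TV v (-(3 / (2 * om e v))) :=
      inv_comp hx1 (by rw [TV_add, neg_add_cancel, TV_zero])
    have hy' : ((y⁻¹ : (MJ n)ˣ) : MJ n) j = TV e (-(1 / om e v)) :=
      inv_comp hy1 (by rw [TV_add, neg_add_cancel, TV_zero])
    refine ⟨v - e, fun i hi => ?_, ?_, fun h1 => ?_, hw, fun s => ?_⟩
    · rw [Pi.sub_apply, hv1 i (by omega), he, Pi.single_eq_of_ne, sub_zero]
      intro h
      rw [h] at hi
      exact absurd hi (lt_irrefl _)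
    · rw [Pi.sub_apply, hv1 _ (by simp), he, Pi.single_eq_same]
      simp
    · rcases Nat.eq_zero_or_pos r with h0 | h0
      · subst h0
        rw [Pi.sub_apply, hv1 _ (by simp), he, Pi.single_eq_same]
        simp
      · rw [Pi.sub_apply, he, Pi.single_eq_of_ne, sub_zero]
        · exact hv5 h0
        · intro h2
          have h3 := congrArg Fin.val h2
          simp only at h3
          omega
    · obtain ⟨z, hz, hz1⟩ := hw (s / 15)
      have hz' : ((z⁻¹ : (MJ n)ˣ) : MJ n) j = TV (v - e) (-(s / 15)) :=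
        inv_comp hz1 (by rw [TV_add, neg_add_cancel, TV_zero])
      refine ⟨x * y * x⁻¹ * y⁻¹ * z * (y * x * y⁻¹ * x⁻¹) * z⁻¹, ?_, ?_, ?_⟩
      · have hxi := inv_mem hx
        have hyi := inv_mem hyG
        exact mul_mem (mul_mem (mul_mem (mul_mem (mul_mem (mul_mem hx hyG) hxi) hyi) hz)
          (mul_mem (mul_mem (mul_mem hyG hx) hyi) hxi)) (inv_mem hz)
      · have h1 := tv_four hc (s / 15)
        have h2 : ((x * y * x⁻¹ * y⁻¹ * z * (y * x * y⁻¹ * x⁻¹) * z⁻¹ : (MJ n)ˣ) : MJ n) j =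
            (TV v (3 / (2 * om e v)) * (TV e (1 / om e v) * (TV v (-(3 / (2 * om e v))) * (TV e (-(1 / om e v)) *
              TV (v - e) (s / 15) * TV e (1 / om e v)) * TV v (3 / (2 * om e v))) * TV e (-(1 / om e v))) *
              TV v (-(3 / (2 * om e v)))) * TV (v - e) (-(s / 15)) := by
          simp only [Units.val_mul, Pi.mul_apply, hx1, hy1, hz1, hx', hy', hz', mul_assoc]
        rw [h2, h1, TV_add]
        congr 1
        ring
      · rintro j' ⟨i, hi, hi'⟩
        have hinv : ∀ t : (MJ n)ˣ, (t : MJ n) j' = 1 → ((t⁻¹ : (MJ n)ˣ) : MJ n) j' = 1 := fun t ht =>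
          inv_comp ht (by rw [mul_one])
        have hmi : ∀ t : (MJ n)ˣ, (t : MJ n) j' * ((t⁻¹ : (MJ n)ˣ) : MJ n) j' = 1 := fun t => by
          rw [← Pi.mul_apply, Units.mul_inv, Pi.one_apply]
        simp only [Units.val_mul, Pi.mul_apply]
        rcases Nat.lt_or_ge r (i : ℕ) with h | h
        · have h1 : i = ⟨r + 1, hr⟩ := Fin.ext (by simp only; omega)
          rw [h1] at hi'
          have hy0 : (y : MJ n) j' = 1 := TJ_not hi' _
          rw [hy0, hinv y hy0]
          simp only [mul_one, one_mul]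
          rw [hmi x, one_mul, mul_one, hmi z]
        · have hx0 : (x : MJ n) j' = 1 := hx2 j' ⟨i, h, hi'⟩
          rw [hx0, hinv x hx0]
          simp only [mul_one, one_mul]
          rw [hmi y, one_mul, mul_one, hmi z]

/-- enough vectors: a closed monoid which contains the transvections of a vector which is not orthogonal to a unit
vector, and which is normalized by the transvections of the unit vectors, contains all transvections -/
theorem all_of_one {m : ℕ} {M : Submonoid (Matrix (Fin m) (Fin m) ℂ)} (hM : PolyClosed M) {v : Fin m → ℂ}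
    (hv : v ∈ VM M) {k0 : Fin m} (hk0 : om (Pi.single k0 1) v ≠ 0)
    (hconj : ∀ (k : Fin m) (w : Fin m → ℂ), w ∈ VM M → ∀ c : ℂ, om (Pi.single k 1) w ≠ 0 →
      w + c • (Pi.single k 1 : Fin m → ℂ) ∈ VM M) (w : Fin m → ℂ) : w ∈ VM M := by
  have step : ∀ (k : Fin m) (w : Fin m → ℂ), w ∈ VM M → om (Pi.single k 1) w ≠ 0 →
      (Pi.single k 1 : Fin m → ℂ) ∈ VM M := by
    intro k w hw h
    refine closed_memM hM (w := w) fun c hc => ?_
    have h1 := smul_memM (hconj k w hw c⁻¹ h) c
    rw [smul_add, smul_smul, mul_inv_cancel₀ hc, one_smul, add_comm] at h1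
    exact h1
  have hom : ∀ k k' : Fin m, ((k : ℕ) = k' + 1 ∨ (k' : ℕ) = k + 1) →
      om (Pi.single k 1) (Pi.single k' 1 : Fin m → ℂ) ≠ 0 := by
    intro k k' h
    rw [om_single, mulVec_single_one]
    show jm ℂ m k k' ≠ 0
    rw [jm_apply, if_pos h]
    simp
  have h0 := step k0 v hv hk0
  have hup : ∀ d : ℕ, ∀ k : Fin m, (k : ℕ) = k0 + d → (Pi.single k 1 : Fin m → ℂ) ∈ VM M := by
    intro d
    induction d with
    | zero =>
      intro k hk
      have : k = k0 := Fin.ext (by simpa using hk)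
      rw [this]
      exact h0
    | succ d ih =>
      intro k hk
      have hk2 := k.2
      exact step k _ (ih ⟨k0 + d, by omega⟩ rfl) (hom _ _ (Or.inl (by simp only; omega)))
  have hdown : ∀ d : ℕ, ∀ k : Fin m, (k : ℕ) + d = k0 → (Pi.single k 1 : Fin m → ℂ) ∈ VM M := by
    intro d
    induction d with
    | zero =>
      intro k hk
      have : k = k0 := Fin.ext (by simpa using hk)
      rw [this]
      exact h0
    | succ d ih =>
      intro k hk
      have hk2 := k0.2
      exact step k _ (ih ⟨k + 1, by omega⟩ (by simp only; omega)) (hom _ _ (Or.inr (by simp only)))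
  refine supp_memM hM (fun k => ?_) m le_rfl w fun i hi => absurd i.2 (not_lt.2 hi)
  rcases le_total (k0 : ℕ) k with h | h
  · exact hup (k - k0) k (by omega)
  · exact hdown (k0 - k) k (by omega)

section final

variable [Fintype ι] [DecidableEq ι]

theorem TV_small {m : ℕ} (hm : m < 2) (v : Fin m → ℂ) (s : ℂ) : TV v s = 1 := by
  have h1 : jm ℂ m = 0 := by
    ext a b
    rw [jm_apply, if_neg]
    · rfl
    · have := a.2
      have := b.2
      omega
  unfold TV
  rw [h1, Matrix.zero_mulVec, Matrix.zero_vecMulVec, smul_zero, add_zero]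

/-- **All transvections in all the factors preserve the relations.** -/
theorem pure_TV (hd : ∀ j j', (∀ k, (∃ k', φ j k' = k) ↔ (∃ k', φ j' k' = k)) → j = j')
    {a : Fin N → ℝ} (ha : StrictMono a) (p : Fin (N + 1)) (d : ℕ) :
    ∀ j, n j + d = N → ∀ g ∈ CT (n j), (Pi.mulSingle j g : MJ n) ∈ MonJ φ a p := by
  induction d using Nat.strong_induction_on with
  | _ d ih =>
  intro j hj
  set Mj : Submonoid (Matrix (Fin (n j)) (Fin (n j)) ℂ) :=
    (MonJ φ a p).comap (MonoidHom.mulSingle (fun j => Matrix (Fin (n j)) (Fin (n j)) ℂ) j) with hMj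
  have hmem : ∀ g, g ∈ Mj ↔ (Pi.mulSingle j g : MJ n) ∈ MonJ φ a p := fun g => Iff.rfl
  have hle : ∀ j', n j' ≤ N := by
    intro j'
    have := Fintype.card_le_of_injective (φ j') (φ j').injective
    simpa using this
  rcases Nat.lt_or_ge (n j) 2 with h0 | h0
  · refine fun g hg => (hmem g).1 (CT_le (M := Mj) (fun v s => ?_) hg)
    rw [TV_small h0]
    exact one_mem _
  obtain ⟨v, _, _, hv5, _, hv4⟩ := chain' (φ := φ) j (n j - 1) (by omega)
  have hv6 : om (Pi.single (⟨0, by omega⟩ : Fin (n j)) 1) v ≠ 0 := by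
    intro h
    rw [om_zero_one (by omega) (by omega)] at h
    exact hv5 (by omega) h
  refine fun g hg => (hmem g).1 (CT_le (M := Mj) (fun v' s' => all_of_one (M := Mj) ?_ (v := v) ?_ hv6 ?_ v' s') hg)
  · intro G S hS h s
    rw [hmem, ← mulSingle_map]
    refine poly_familyJ _ hS (fun s hs => ?_) s
    rw [mulSingle_map]
    exact (hmem _).1 (h s hs)
  · intro s
    rw [hmem]
    obtain ⟨u, hu, hu1, hu2⟩ := hv4 s
    set w : MJ n := fun j' => if j' = j then 1 else ((u⁻¹ : (MJ n)ˣ) : MJ n) j' with hw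
    have h1 : (Pi.mulSingle j (TV v s) : MJ n) = (u : MJ n) * w := by
      funext j'
      rw [Pi.mul_apply, hw]
      by_cases h : j' = j
      · subst h
        rw [Pi.mulSingle_eq_same, ← hu1]
        simp
      · rw [Pi.mulSingle_eq_of_ne h]
        simp only [if_neg h]
        rw [← Pi.mul_apply, Units.mul_inv, Pi.one_apply]
    rw [h1]
    refine mul_mem (GJ_mem ha p hu) (tuple_mem _ _ fun j' => ?_)
    rw [hw]
    by_cases h : j' = j
    · simp only [if_pos h]
      rw [Pi.mulSingle_one]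
      exact one_mem _
    · simp only [if_neg h]
      by_cases hsub : ∀ i : Fin (n j), ∃ k', φ j' k' = φ j i
      · -- a larger set
        have hlt : n j < n j' := by
          by_contra hcon
          rw [not_lt] at hcon
          apply h
          refine (hd j j' fun k => ?_).symm
          have h2 : (Finset.univ.map (φ j).toEmbedding) ⊆ (Finset.univ.map (φ j').toEmbedding) := by
            intro x hx
            rw [Finset.mem_map] at hx ⊢
            obtain ⟨i, _, rfl⟩ := hx
            obtain ⟨k', hk'⟩ := hsub i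
            exact ⟨k', Finset.mem_univ _, hk'⟩
          have h3 := Finset.eq_of_subset_of_card_le h2 (by
            rw [Finset.card_map, Finset.card_map, Finset.card_univ, Finset.card_univ, Fintype.card_fin,
              Fintype.card_fin]
            exact hcon)
          have h4 : ∀ (j : ι) (k : Fin N), (∃ k', φ j k' = k) ↔ k ∈ Finset.univ.map (φ j).toEmbedding := by
            intro j k
            rw [Finset.mem_map]
            constructor
            · rintro ⟨k', hk'⟩
              exact ⟨k', Finset.mem_univ _, hk'⟩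
            · rintro ⟨k', _, hk'⟩
              exact ⟨k', hk'⟩
          rw [h4, h4, h3]
        have hle' := hle j'
        exact ih (N - n j') (by omega) j' (by omega) _ (GJ_CT hu j').2
      · push Not at hsub
        obtain ⟨i, hi⟩ := hsub
        have h2 : (u : MJ n) j' = 1 := hu2 j' ⟨i, by have := i.2; omega, by
          rintro ⟨k', hk'⟩
          exact hi k' hk'⟩
        have h3 : ((u⁻¹ : (MJ n)ˣ) : MJ n) j' = 1 := inv_comp h2 (by rw [mul_one])
        rw [h3, Pi.mulSingle_one]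
        exact one_mem _
  · intro k w hw c h r
    rw [hmem]
    obtain ⟨x, hx, hx1⟩ := single_mem0 (φ := φ) j k (c / om (Pi.single k 1) w)
    have h1 := TV_conj (Pi.single k 1) w (c / om (Pi.single k 1) w) r
    rw [div_mul_cancel₀ _ h] at h1
    have h2 : (Pi.mulSingle j (TV (w + c • (Pi.single k 1 : Fin (n j) → ℂ)) r) : MJ n) =
        (x : MJ n) * (Pi.mulSingle j (TV w r) : MJ n) * ((x⁻¹ : (MJ n)ˣ) : MJ n) := by
      funext j'
      rw [Pi.mul_apply, Pi.mul_apply]
      by_cases h : j' = j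
      · subst h
        rw [Pi.mulSingle_eq_same, Pi.mulSingle_eq_same, ← h1, hx1,
          inv_comp hx1 (B := TV (Pi.single k 1) (-(c / om (Pi.single k 1) w))) (by rw [TV_add, neg_add_cancel, TV_zero])]
      · rw [Pi.mulSingle_eq_of_ne h, Pi.mulSingle_eq_of_ne h, mul_one, ← Pi.mul_apply, Units.mul_inv, Pi.one_apply]
    rw [h2]
    exact mul_mem (mul_mem (GJ_mem ha p hx) ((hmem _).1 (hw r))) (GJ_mem ha p (inv_mem hx))

theorem single_TV (hd : ∀ j j', (∀ k, (∃ k', φ j k' = k) ↔ (∃ k', φ j' k' = k)) → j = j')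
    {a : Fin N → ℝ} (ha : StrictMono a) (p : Fin (N + 1)) (j : ι) (v : Fin (n j) → ℂ) (s : ℂ) :
    (Pi.mulSingle j (TV v s) : MJ n) ∈ MonJ φ a p := by
  have h1 : n j ≤ N := by
    have := Fintype.card_le_of_injective (φ j) (φ j).injective
    simpa using this
  exact pure_TV hd ha p (N - n j) j (by omega) _ (TV_CT v s)

end final

end Pool.Agent.N121.ZK
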